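import Pool.Agent.H3.EP.Measure

namespace H3EP

open Filter Topology

/-- distance of `x` to the nearest integer, with sign. -/
noncomputable def sd (x : ℝ) : ℝ := x - round x

lemma sd_abs_le (x : ℝ) : |sd x| ≤ 1 / 2 := abs_sub_round x

/-- `|x - round x|` is at most the distance to any integer. -/
lemma sd_abs_le_of (x : ℝ) (m : ℤ) : |sd x| ≤ |x - m| := round_le x m

lemma int_eq_zero_of_abs_lt_one (m : ℤ) (h : |(m:ℝ)| < 1) : m = 0 := by
  have : |m| < 1 := by exact_mod_cast h
  exact Int.abs_lt_one_iff.mp this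

lemma sd_eq_of (x : ℝ) (m : ℤ) (δ : ℝ) (hδ : |δ| < 1 / 2) (h : x = m + δ) : sd x = δ := by
  have h1 : |sd x| ≤ 1/2 := sd_abs_le x
  have h2 : ((round x - m : ℤ) : ℝ) = δ - sd x := by
    unfold sd
    push_cast
    linarith
  have h3 : |((round x - m : ℤ) : ℝ)| < 1 := by
    rw [h2]
    calc |δ - sd x| ≤ |δ| + |sd x| := abs_sub _ _
      _ < 1 := by linarith
  have h4 := int_eq_zero_of_abs_lt_one _ h3
  rw [h4] at h2
  push_cast at h2
  linarith

/-- If `y` is a rational combination of `1, e` then the distances of `c q_n y` to the nearest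
integers are super-exponentially small. -/
lemma small_of_rel (y : ℝ) (a b c : ℤ) (h : (a:ℝ) + b * Real.exp 1 + c * y = 0) (n : ℕ) :
    |sd (c * qe n * y)| ≤ |(b:ℝ)| * J n := by
  refine (sd_abs_le_of _ (-(a * qe n) - b * pe n)).trans ?_
  have : (c:ℝ) * qe n * y - ((-(a * qe n) - b * pe n : ℤ) : ℝ)
      = -(b * ((qe n : ℝ) * Real.exp 1 - pe n)) := by
    push_cast
    linear_combination (qe n : ℝ) * h
  rw [this, abs_neg, abs_mul, J_abs]

/-- threshold criterion : general real `y` -/
lemma rel_of_threshold (y : ℝ)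
    (h : ∀ᶠ n : ℕ in atTop, |sd (qe n * y)| ≤ 1 / (4 * n + 5)) :
    ∃ l m : ℤ, 2 * y = l * Real.exp 1 + m := by
  obtain ⟨N, hN⟩ := eventually_atTop.mp h
  -- nearest integers
  set A : ℕ → ℤ := fun n => round ((qe n : ℝ) * y) with hA
  have hs : ∀ n, (qe n : ℝ) * y = A n + sd (qe n * y) := by
    intro n; simp [hA, sd]
  have hrec : ∀ n ≥ N, A (n + 2) = (4 * n + 6) * A (n + 1) + A n := by
    intro n hn
    have h0 := hN n hn
    have h1 := hN (n + 1) (by omega)
    have h2 := hN (n + 2) (by omega)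
    have e : ((A (n + 2) - ((4 * n + 6) * A (n + 1) + A n) : ℤ) : ℝ)
        = - sd (qe (n + 2) * y) + (4 * n + 6) * sd (qe (n + 1) * y) + sd (qe n * y) := by
      have i0 := hs n
      have i1 := hs (n + 1)
      have i2 := hs (n + 2)
      have iq := qe_succ_succ n
      have iq' : (qe (n + 2) : ℝ) = (4 * n + 6) * qe (n + 1) + qe n := by exact_mod_cast iq
      push_cast
      have i2' : ((4 * n + 6) * (qe (n + 1) : ℝ) + qe n) * y = A (n + 2) + sd (qe (n + 2) * y) := by
        rw [← iq']; exact i2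
      linear_combination (-1) * i2' + (4 * (n:ℝ) + 6) * i1 + i0
    have hlt : |((A (n + 2) - ((4 * n + 6) * A (n + 1) + A n) : ℤ) : ℝ)| < 1 := by
      rw [e]
      have hb : |(4 * (n:ℝ) + 6) * sd (qe (n + 1) * y)| ≤ (4 * n + 6) * (1 / (4 * ((n + 1 : ℕ) : ℝ) + 5)) := by
        rw [abs_mul, abs_of_pos (by positivity : (0:ℝ) < 4 * (n:ℝ) + 6)]
        exact mul_le_mul_of_nonneg_left h1 (by positivity)
      have hsum : 1 / (4 * ((n + 2 : ℕ) : ℝ) + 5) + (4 * (n:ℝ) + 6) * (1 / (4 * ((n + 1 : ℕ) : ℝ) + 5))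
          + 1 / (4 * (n:ℝ) + 5) < 1 := by
        push_cast
        have hn0 : (0:ℝ) ≤ n := by positivity
        have d1 : (0:ℝ) < 4 * (n + 2) + 5 := by positivity
        have d2 : (0:ℝ) < 4 * (n + 1) + 5 := by positivity
        have d3 : (0:ℝ) < 4 * n + 5 := by positivity
        rw [mul_one_div, div_add_div _ _ d1.ne' d2.ne', div_add_div _ _ (by positivity) d3.ne',
          div_lt_one (by positivity)]
        nlinarith [mul_nonneg hn0 hn0, mul_nonneg (mul_nonneg hn0 hn0) hn0]
      calc |-sd (qe (n + 2) * y) + (4 * n + 6) * sd (qe (n + 1) * y) + sd (qe n * y)|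
          ≤ |-sd (qe (n + 2) * y) + (4 * n + 6) * sd (qe (n + 1) * y)| + |sd (qe n * y)| :=
            abs_add_le _ _
        _ ≤ |-sd (qe (n + 2) * y)| + |(4 * (n:ℝ) + 6) * sd (qe (n + 1) * y)| + |sd (qe n * y)| := by
            gcongr; exact abs_add_le _ _
        _ < 1 := by rw [abs_neg]; linarith
    have := int_eq_zero_of_abs_lt_one _ hlt
    linarith
  -- the invariants
  set l : ℤ := (-1) ^ (N + 1) * (A N * qe (N + 1) - A (N + 1) * qe N) with hl
  set m : ℤ := (-1) ^ (N + 1) * (pe N * A (N + 1) - pe (N + 1) * A N) with hm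
  have hinv : ∀ k, (2 * A (N + k) = l * pe (N + k) + m * qe (N + k)) ∧
      (2 * A (N + k + 1) = l * pe (N + k + 1) + m * qe (N + k + 1)) := by
    intro k
    induction k with
    | zero =>
      have hd := qe_det N
      have hsq : ((-1:ℤ) ^ (N + 1)) * (-1) ^ (N + 1) = 1 := by rw [← mul_pow]; norm_num
      constructor
      · simp only [add_zero]
        rw [hl, hm]
        linear_combination (-(A N) * (-1) ^ (N + 1)) * hd - 2 * A N * hsq
      · simp only [add_zero]
        rw [hl, hm]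
        linear_combination (-(A (N + 1)) * (-1) ^ (N + 1)) * hd - 2 * A (N + 1) * hsq
    | succ k ih =>
      obtain ⟨i0, i1⟩ := ih
      constructor
      · exact i1
      · have r := hrec (N + k) (by omega)
        have e1 : N + (k + 1) + 1 = N + k + 2 := by ring
        rw [e1, r, pe_succ_succ, qe_succ_succ]
        push_cast at r ⊢
        linear_combination (4 * ((N:ℤ) + k) + 6) * i1 + i0
  refine ⟨l, m, ?_⟩
  -- limit
  by_contra hne
  set δ : ℝ := |2 * y - l * Real.exp 1 - m| with hδ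
  have hδpos : 0 < δ := by
    rw [hδ, abs_pos]
    intro h0
    apply hne
    linarith
  have hbound : ∀ k, (qe (N + k) : ℝ) * δ ≤ 1 + |(l:ℝ)| * J 0 := by
    intro k
    have i0 := (hinv k).1
    have i0' : 2 * (A (N + k) : ℝ) = l * pe (N + k) + m * qe (N + k) := by exact_mod_cast i0
    have hsk := hs (N + k)
    have hpos : (0:ℝ) < qe (N + k) := by exact_mod_cast qe_pos _
    have : (qe (N + k) : ℝ) * (2 * y - l * Real.exp 1 - m)
        = 2 * sd (qe (N + k) * y) - l * ((qe (N + k) : ℝ) * Real.exp 1 - pe (N + k)) := by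
      linear_combination 2 * hsk + i0'
    have h2 : (qe (N + k) : ℝ) * δ = |2 * sd (qe (N + k) * y) - l * ((qe (N + k) : ℝ) * Real.exp 1 - pe (N + k))| := by
      rw [← this, abs_mul, abs_of_pos hpos]
    rw [h2]
    refine (abs_sub _ _).trans ?_
    rw [abs_mul, abs_mul, J_abs]
    have h3 := sd_abs_le (qe (N + k) * y)
    have h4 : J (N + k) ≤ J 0 := J_anti (Nat.zero_le _)
    have h5 : |(2:ℝ)| = 2 := by norm_num
    rw [h5]
    have h6 := abs_nonneg (l:ℝ)
    nlinarith
  have htend : Tendsto (fun k => (qe (k + 1) : ℝ) * δ) atTop atTop :=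
    qe_tendsto.atTop_mul_const hδpos
  obtain ⟨k, hk1, hk2⟩ := ((htend.eventually_gt_atTop (1 + |(l:ℝ)| * J 0)).and
    (eventually_ge_atTop N)).exists
  have := hbound (k + 1 - N)
  rw [show N + (k + 1 - N) = k + 1 by omega] at this
  linarith

/-! ### the factorial version -/

/-- `N! * (e - ∑_{k ≤ N} 1/k!)` -/
noncomputable def R (N : ℕ) : ℝ :=
  N.factorial * (Real.exp 1 - ∑ k ∈ Finset.range (N + 1), 1 / (k.factorial : ℝ))

/-- the integer `∑_{k ≤ N} N!/k!` -/
def EN : ℕ → ℤ
  | 0 => 1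
  | (n + 1) => (n + 1) * EN n + 1

lemma EN_eq (N : ℕ) : (EN N : ℝ) = N.factorial * ∑ k ∈ Finset.range (N + 1), 1 / (k.factorial : ℝ) := by
  induction N with
  | zero => simp [EN]
  | succ n ih =>
    rw [Finset.sum_range_succ]
    have : (EN (n + 1) : ℝ) = (n + 1) * EN n + 1 := by simp [EN]
    rw [this, ih, Nat.factorial_succ]
    have : (n.factorial : ℝ) ≠ 0 := by positivity
    push_cast
    field_simp

lemma fac_mul_exp (N : ℕ) : (N.factorial : ℝ) * Real.exp 1 = EN N + R N := by
  rw [EN_eq, R]; ring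

lemma R_succ (N : ℕ) : R (N + 1) = (N + 1) * R N - 1 := by
  have h0 := fac_mul_exp N
  have h1 := fac_mul_exp (N + 1)
  have h2 : (EN (N + 1) : ℝ) = (N + 1) * EN N + 1 := by simp [EN]
  rw [Nat.factorial_succ] at h1
  push_cast at h1
  rw [h2] at h1
  linear_combination (-1) * h1 + ((N:ℝ) + 1) * h0

lemma R_abs_le (N : ℕ) : |R N| ≤ 2 / (N + 1) := by
  have h := Real.exp_bound (x := 1) (by norm_num) (n := N + 1) (by omega)
  unfold R
  have hs : ∑ m ∈ Finset.range (N + 1), (1:ℝ) ^ m / (m.factorial : ℝ) =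
      ∑ k ∈ Finset.range (N + 1), 1 / (k.factorial : ℝ) := by
    simp
  rw [hs] at h
  rw [abs_mul, abs_of_pos (by positivity : (0:ℝ) < N.factorial)]
  have hf : (0:ℝ) < N.factorial := by positivity
  calc (N.factorial : ℝ) * |Real.exp 1 - ∑ k ∈ Finset.range (N + 1), 1 / (k.factorial : ℝ)|
      ≤ N.factorial * (|1| ^ (N + 1) * (((N + 1).succ : ℕ) / (((N + 1).factorial : ℕ) * (N + 1 : ℕ)))) :=
        mul_le_mul_of_nonneg_left h hf.le
    _ ≤ 2 / (N + 1) := by
        rw [Nat.factorial_succ]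
        push_cast
        rw [abs_one, one_pow, one_mul]
        have : (N.factorial : ℝ) * (((N:ℝ) + 1 + 1) / (((N:ℝ) + 1) * N.factorial * (N + 1)))
            = ((N:ℝ) + 2) / ((N + 1) * (N + 1)) := by
          field_simp
          ring
        rw [this, div_le_div_iff₀ (by positivity) (by positivity)]
        have hn : (0:ℝ) ≤ N := by positivity
        nlinarith

lemma R_tendsto : Tendsto R atTop (𝓝 0) := by
  apply squeeze_zero_norm (a := fun N : ℕ => 2 / ((N:ℝ) + 1))
  · intro N; exact R_abs_le N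
  · have := tendsto_const_div_atTop_nhds_zero_nat (2:ℝ)
    have h2 := (tendsto_add_atTop_iff_nat 1).mpr this
    refine h2.congr ?_
    intro n; push_cast; rfl

lemma mul_R_tendsto : Tendsto (fun N : ℕ => (N:ℝ) * R N) atTop (𝓝 1) := by
  have h1 : Tendsto (fun N : ℕ => 1 + R (N + 1) - R N) atTop (𝓝 (1 + 0 - 0)) :=
    ((tendsto_const_nhds).add ((tendsto_add_atTop_iff_nat 1).mpr R_tendsto)).sub R_tendsto
  simp only [add_zero, sub_zero] at h1
  refine h1.congr ?_
  intro N
  rw [R_succ]; ring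

lemma fac_of_rel (y : ℝ) (a b c : ℤ) (h : (a:ℝ) + b * Real.exp 1 + c * y = 0) :
    Tendsto (fun N : ℕ => (N:ℝ) * sd (N.factorial * (c * y))) atTop (𝓝 (-(b:ℝ))) := by
  have h1 : ∀ᶠ N : ℕ in atTop, (N:ℝ) * sd (N.factorial * (c * y)) = -(b:ℝ) * (N * R N) := by
    have hsmall : ∀ᶠ N : ℕ in atTop, |-(b:ℝ) * R N| < 1 / 2 := by
      have : Tendsto (fun N => |-(b:ℝ) * R N|) atTop (𝓝 |-(b:ℝ) * 0|) :=
        (R_tendsto.const_mul _).abs
      rw [mul_zero, abs_zero] at this
      exact this.eventually_lt_const (by norm_num)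
    filter_upwards [hsmall] with N hN
    have : sd (N.factorial * (c * y)) = -(b:ℝ) * R N := by
      apply sd_eq_of _ (-(a * N.factorial) - b * EN N) _ hN
      push_cast
      have := fac_mul_exp N
      linear_combination (N.factorial : ℝ) * h - (b:ℝ) * this
    rw [this]; ring
  have h2 : Tendsto (fun N : ℕ => -(b:ℝ) * (N * R N)) atTop (𝓝 (-(b:ℝ) * 1)) :=
    mul_R_tendsto.const_mul _
  rw [mul_one] at h2
  exact h2.congr' (h1.mono fun N hN => hN.symm)

lemma rel_of_fac (y L : ℝ) (h : Tendsto (fun N : ℕ => (N:ℝ) * sd (N.factorial * y)) atTop (𝓝 L)) :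
    ∃ (N : ℕ) (M d : ℤ), (N.factorial : ℝ) * y = M + d * (N.factorial * Real.exp 1) := by
  set s : ℕ → ℝ := fun N => sd (N.factorial * y) with hs
  -- s tends to 0
  have hs0 : Tendsto s atTop (𝓝 0) := by
    have h1 : Tendsto (fun N : ℕ => ((N:ℝ) * s N) * (1 / (N:ℝ))) atTop (𝓝 (L * 0)) :=
      h.mul tendsto_one_div_atTop_nhds_zero_nat
    rw [mul_zero] at h1
    refine h1.congr' ?_
    filter_upwards [eventually_gt_atTop 0] with N hN
    have : (N:ℝ) ≠ 0 := by positivity
    field_simp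
  -- integers
  set d : ℕ → ℤ := fun N => round (((N + 1).factorial : ℝ) * y) - (N + 1) * round ((N.factorial : ℝ) * y)
    with hd
  have hdeq : ∀ N, (d N : ℝ) = (N + 1) * s N - s (N + 1) := by
    intro N
    have h0 : s N = (N.factorial : ℝ) * y - round ((N.factorial : ℝ) * y) := rfl
    have h1 : s (N + 1) = ((N + 1).factorial : ℝ) * y - round (((N + 1).factorial : ℝ) * y) := rfl
    have hfs : (((N + 1).factorial : ℕ) : ℝ) = (N + 1) * N.factorial := by
      rw [Nat.factorial_succ]; push_cast; ring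
    rw [h0, h1, hd]
    push_cast
    linear_combination y * hfs
  have hdlim : Tendsto (fun N => (d N : ℝ)) atTop (𝓝 L) := by
    have h1 : Tendsto (fun N : ℕ => (N:ℝ) * s N + s N - s (N + 1)) atTop (𝓝 (L + 0 - 0)) :=
      (h.add hs0).sub ((tendsto_add_atTop_iff_nat 1).mpr hs0)
    simp only [add_zero, sub_zero] at h1
    refine h1.congr ?_
    intro N
    rw [hdeq]; ring
  -- eventually constant
  obtain ⟨N0, hN0⟩ := eventually_atTop.mp (hdlim.eventually (Metric.ball_mem_nhds L (by norm_num : (0:ℝ) < 1/2)))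
  have hconst : ∀ N ≥ N0, d N = d N0 := by
    intro N hN
    have h1 := hN0 N hN
    have h2 := hN0 N0 le_rfl
    rw [Real.dist_eq] at h1 h2
    have h3 : |((d N - d N0 : ℤ) : ℝ)| < 1 := by
      push_cast
      calc |(d N : ℝ) - d N0| = |((d N : ℝ) - L) - ((d N0 : ℝ) - L)| := by ring_nf
        _ ≤ |(d N : ℝ) - L| + |(d N0 : ℝ) - L| := abs_sub _ _
        _ < 1 := by linarith
    have := int_eq_zero_of_abs_lt_one _ h3
    omega
  -- difference with `d * R`
  set D : ℤ := d N0 with hD
  set u : ℕ → ℝ := fun N => s N - D * R N with hu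
  have hurec : ∀ N ≥ N0, u (N + 1) = (N + 1) * u N := by
    intro N hN
    have h1 := hdeq N
    rw [hconst N hN] at h1
    simp only [hu]
    rw [R_succ]
    linear_combination h1
  have hu0 : Tendsto u atTop (𝓝 0) := by
    have : Tendsto (fun N => s N - D * R N) atTop (𝓝 (0 - D * 0)) :=
      hs0.sub (R_tendsto.const_mul _)
    simpa using this
  have huN : u N0 = 0 := by
    have hmono : ∀ k, |u N0| ≤ |u (N0 + k)| := by
      intro k
      induction k with
      | zero => simp
      | succ k ih =>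
        have h1 := hurec (N0 + k) (by omega)
        rw [← add_assoc, h1, abs_mul]
        have h2 : (1:ℝ) ≤ |((N0 + k : ℕ) : ℝ) + 1| := by
          rw [abs_of_pos (by positivity)]
          have : (0:ℝ) ≤ ((N0 + k : ℕ) : ℝ) := by positivity
          linarith
        have h3 := abs_nonneg (u (N0 + k))
        nlinarith
    have h1 : Tendsto (fun k => |u (N0 + k)|) atTop (𝓝 0) := by
      have h2 := hu0.abs
      rw [abs_zero] at h2
      have h3 := (tendsto_add_atTop_iff_nat N0).mpr h2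
      refine h3.congr ?_
      intro k; rw [add_comm]
    have h2 : |u N0| ≤ 0 := ge_of_tendsto h1 (Eventually.of_forall hmono)
    exact abs_nonpos_iff.mp h2
  have hN0' : s N0 = D * R N0 := by
    have : s N0 - D * R N0 = 0 := huN
    linarith
  refine ⟨N0, round ((N0.factorial : ℝ) * y) - D * EN N0, D, ?_⟩
  have h0 : s N0 = (N0.factorial : ℝ) * y - round ((N0.factorial : ℝ) * y) := rfl
  have h1 := fac_mul_exp N0
  rw [h1]
  push_cast
  linarith

end H3EP
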