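import Mathlib

/-!
Explicit rational approximations to `e`:
`q = 1, 1, 7, 71, 1001, ...`, `p = 1, 3, 19, 193, 2721, ...`.
-/

namespace H3EP

open MeasureTheory intervalIntegral

/-- Denominators of the diagonal Padé approximants of `e`. -/
def qe : ℕ → ℤ
  | 0 => 1
  | 1 => 1
  | (n + 2) => (4 * n + 6) * qe (n + 1) + qe n

/-- Numerators of the diagonal Padé approximants of `e`. -/
def pe : ℕ → ℤ
  | 0 => 1
  | 1 => 3
  | (n + 2) => (4 * n + 6) * pe (n + 1) + pe n

lemma qe_succ_succ (n : ℕ) : qe (n + 2) = (4 * n + 6) * qe (n + 1) + qe n := by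
  simp [qe]

lemma pe_succ_succ (n : ℕ) : pe (n + 2) = (4 * n + 6) * pe (n + 1) + pe n := by
  simp [pe]

lemma qe_zero : qe 0 = 1 := rfl
lemma qe_one : qe 1 = 1 := rfl
lemma pe_zero : pe 0 = 1 := rfl
lemma pe_one : pe 1 = 3 := rfl

lemma qe_pos (n : ℕ) : 0 < qe n := by
  induction n using Nat.strong_induction_on with
  | _ n ih =>
    match n, ih with
    | 0, _ => simp [qe]
    | 1, _ => simp [qe]
    | (n + 2), ih =>
      rw [qe_succ_succ]
      have h1 := ih (n + 1) (by omega)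
      have h0 := ih n (by omega)
      positivity

lemma qe_det (n : ℕ) : pe n * qe (n + 1) - pe (n + 1) * qe n = (-1) ^ (n + 1) * 2 := by
  induction n with
  | zero => simp [pe, qe]
  | succ n ih =>
    rw [qe_succ_succ, pe_succ_succ, pow_succ]
    linear_combination (-1) * ih

/-- The integrals `∫₀¹ (x(1-x))^n/n! e^x dx`. -/
noncomputable def J (n : ℕ) : ℝ :=
  ∫ x in (0:ℝ)..1, (x * (1 - x)) ^ n / (n.factorial : ℝ) * Real.exp x

lemma J_cont (n : ℕ) :
    Continuous (fun x : ℝ => (x * (1 - x)) ^ n / (n.factorial : ℝ) * Real.exp x) := by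
  fun_prop

lemma J_pos (n : ℕ) : 0 < J n := by
  unfold J
  apply intervalIntegral.intervalIntegral_pos_of_pos_on
  · exact (J_cont n).intervalIntegrable _ _
  · intro x hx
    have h1 : 0 < x := hx.1
    have h2 : 0 < 1 - x := by linarith [hx.2]
    have h3 : (0:ℝ) < n.factorial := by positivity
    positivity
  · norm_num

lemma J_zero : J 0 = Real.exp 1 - 1 := by
  unfold J
  have : ∀ x : ℝ, (x * (1 - x)) ^ 0 / ((Nat.factorial 0 : ℕ) : ℝ) * Real.exp x = Real.exp x := by
    intro x; simp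
  simp only [this]
  rw [integral_exp]; simp

lemma J_one : J 1 = 3 - Real.exp 1 := by
  unfold J
  have : ∀ x ∈ Set.uIcc (0:ℝ) 1, HasDerivAt (fun x : ℝ => (-x ^ 2 + 3 * x - 3) * Real.exp x)
      ((x * (1 - x)) ^ 1 / ((Nat.factorial 1 : ℕ) : ℝ) * Real.exp x) x := by
    intro x _
    have h1 : HasDerivAt (fun x : ℝ => -x ^ 2 + 3 * x - 3) (-(2 * x) + 3) x := by
      have := (((hasDerivAt_pow 2 x).neg.add ((hasDerivAt_id x).const_mul 3)).sub_const 3)
      refine HasDerivAt.congr_deriv (f := fun x : ℝ => -x ^ 2 + 3 * x - 3) this ?_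
      simp
    have h2 := h1.mul (Real.hasDerivAt_exp x)
    refine HasDerivAt.congr_deriv (f := fun x : ℝ => (-x ^ 2 + 3 * x - 3) * Real.exp x) h2 ?_
    simp
    ring
  rw [intervalIntegral.integral_eq_sub_of_hasDerivAt this ((J_cont 1).intervalIntegrable _ _)]
  simp
  ring

lemma J_rec (n : ℕ) : J (n + 2) = J n - (4 * n + 6) * J (n + 1) := by
  have key : ∫ x in (0:ℝ)..1, ((x * (1 - x)) ^ n / (n.factorial : ℝ) * Real.exp x
      - (4 * n + 6) * ((x * (1 - x)) ^ (n + 1) / ((n + 1).factorial : ℝ) * Real.exp x)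
      - (x * (1 - x)) ^ (n + 2) / ((n + 2).factorial : ℝ) * Real.exp x) = 0 := by
    have hd : ∀ x ∈ Set.uIcc (0:ℝ) 1, HasDerivAt
        (fun x : ℝ => ((x * (1 - x)) ^ (n + 1) * ((n + 2) * (1 - 2 * x) - x * (1 - x)) /
          ((n + 2).factorial : ℝ)) * Real.exp x)
        ((x * (1 - x)) ^ n / (n.factorial : ℝ) * Real.exp x
          - (4 * n + 6) * ((x * (1 - x)) ^ (n + 1) / ((n + 1).factorial : ℝ) * Real.exp x)
          - (x * (1 - x)) ^ (n + 2) / ((n + 2).factorial : ℝ) * Real.exp x) x := by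
      intro x _
      have hu : HasDerivAt (fun x : ℝ => x * (1 - x)) (1 - 2 * x) x := by
        have := (hasDerivAt_id x).mul ((hasDerivAt_id x).const_sub 1)
        refine HasDerivAt.congr_deriv (f := fun x : ℝ => x * (1 - x)) this ?_
        simp; ring
      have hup : HasDerivAt (fun x : ℝ => (x * (1 - x)) ^ (n + 1))
          (((n + 1 : ℕ) : ℝ) * (x * (1 - x)) ^ n * (1 - 2 * x)) x := by
        have := hu.pow (n + 1)
        exact this
      have hl : HasDerivAt (fun x : ℝ => ((n:ℝ) + 2) * (1 - 2 * x) - x * (1 - x))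
          (((n:ℝ) + 2) * (-2) - (1 - 2 * x)) x := by
        have h1 : HasDerivAt (fun x : ℝ => 1 - 2 * x) (-2) x := by
          have := ((hasDerivAt_id x).const_mul 2).const_sub 1
          refine HasDerivAt.congr_deriv (f := fun x : ℝ => 1 - 2 * x) this ?_
          simp
        exact (h1.const_mul ((n:ℝ) + 2)).sub hu
      have h := ((hup.mul hl).div_const ((n + 2).factorial : ℝ)).mul (Real.hasDerivAt_exp x)
      refine HasDerivAt.congr_deriv (f := fun x : ℝ => ((x * (1 - x)) ^ (n + 1) *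
        ((n + 2) * (1 - 2 * x) - x * (1 - x)) / ((n + 2).factorial : ℝ)) * Real.exp x) h ?_
      have hf : (n.factorial : ℝ) ≠ 0 := by positivity
      have h1 : (((n + 1).factorial : ℕ) : ℝ) = (n + 1) * n.factorial := by
        rw [Nat.factorial_succ]; push_cast; ring
      have h2 : (((n + 2).factorial : ℕ) : ℝ) = (n + 2) * ((n + 1) * n.factorial) := by
        rw [Nat.factorial_succ, Nat.factorial_succ]; push_cast; ring
      rw [h1, h2]
      have hn1 : (n:ℝ) + 1 ≠ 0 := by positivity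
      have hn2 : (n:ℝ) + 2 ≠ 0 := by positivity
      push_cast
      rw [pow_succ, pow_succ]
      simp only [Pi.mul_apply]
      field_simp
      ring
    rw [intervalIntegral.integral_eq_sub_of_hasDerivAt hd]
    · simp
    · apply Continuous.intervalIntegrable
      fun_prop
  rw [intervalIntegral.integral_sub, intervalIntegral.integral_sub,
    intervalIntegral.integral_const_mul] at key
  · unfold J
    linarith
  · exact (J_cont n).intervalIntegrable _ _
  · exact ((J_cont (n+1)).const_smul ((4 * n + 6 : ℝ))).intervalIntegrable _ _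
  · exact ((J_cont n).sub ((J_cont (n+1)).const_smul ((4 * n + 6 : ℝ)))).intervalIntegrable _ _
  · exact (J_cont (n+2)).intervalIntegrable _ _

/-- `q_n e - p_n = (-1)^n J_n`. -/
lemma qe_mul_exp_sub (n : ℕ) : (qe n : ℝ) * Real.exp 1 - pe n = (-1) ^ n * J n := by
  induction n using Nat.strong_induction_on with
  | _ n ih =>
    match n, ih with
    | 0, _ => simp [qe, pe, J_zero]
    | 1, _ => simp [qe, pe, J_one]
    | (n + 2), ih =>
      rw [qe_succ_succ, pe_succ_succ, J_rec, pow_succ, pow_succ]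
      have h1 := ih (n + 1) (by omega)
      have h0 := ih n (by omega)
      rw [pow_succ] at h1
      push_cast
      linear_combination (4 * (n:ℝ) + 6) * h1 + h0

lemma J_abs (n : ℕ) : |(qe n : ℝ) * Real.exp 1 - pe n| = J n := by
  rw [qe_mul_exp_sub, abs_mul, abs_pow, abs_neg, abs_one, one_pow, one_mul,
    abs_of_pos (J_pos n)]

lemma J_succ_lt (n : ℕ) : (4 * n + 6) * J (n + 1) < J n := by
  have := J_rec n
  have := J_pos (n + 2)
  linarith

lemma J_succ_le (n : ℕ) : J (n + 1) ≤ J n := by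
  have := J_succ_lt n
  have h := J_pos (n + 1)
  nlinarith [Nat.cast_nonneg (α := ℝ) n]

lemma J_anti : Antitone J := antitone_nat_of_succ_le J_succ_le

lemma J_det (n : ℕ) : J n * qe (n + 1) + J (n + 1) * qe n = 2 := by
  have h0 := qe_mul_exp_sub n
  have h1 := qe_mul_exp_sub (n + 1)
  have hd := qe_det n
  have hd' : (pe n : ℝ) * qe (n + 1) - pe (n + 1) * qe n = (-1) ^ (n + 1) * 2 := by
    exact_mod_cast hd
  have hs : ((-1 : ℝ) ^ n) * (-1) ^ n = 1 := by
    rw [← mul_pow]; norm_num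
  have e0 : J n = (-1) ^ n * ((qe n : ℝ) * Real.exp 1 - pe n) := by
    rw [h0, ← mul_assoc, hs, one_mul]
  have e1 : J (n + 1) = - (-1) ^ n * ((qe (n + 1) : ℝ) * Real.exp 1 - pe (n + 1)) := by
    rw [h1, pow_succ]
    linear_combination (-(J (n+1))) * hs
  rw [e0, e1]
  rw [pow_succ] at hd'
  linear_combination (-(-1:ℝ) ^ n) * hd' + 2 * hs

lemma J_mul_qe_le (n : ℕ) : J n * qe (n + 1) ≤ 2 := by
  have h := J_det n
  have h1 : 0 ≤ J (n + 1) * qe n := by
    have := J_pos (n + 1)
    have : (0:ℝ) < qe n := by exact_mod_cast qe_pos n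
    positivity
  linarith

lemma qe_succ_le (n : ℕ) : qe (n + 1) ≤ (4 * n + 3) * qe n := by
  cases n with
  | zero => simp [qe]
  | succ n =>
    rw [qe_succ_succ]
    have h0 : qe n ≤ qe (n + 1) := by
      cases n with
      | zero => simp [qe]
      | succ n =>
        rw [qe_succ_succ]
        have h1 := qe_pos (n + 1)
        have h2 := qe_pos n
        nlinarith
    push_cast
    linarith

lemma qe_succ_ge (n : ℕ) : (4 * n + 2) * qe n ≤ 2 * qe (n + 1) := by
  cases n with
  | zero => simp [qe]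
  | succ n =>
    rw [qe_succ_succ]
    have h1 := qe_pos (n + 1)
    have h2 := qe_pos n
    push_cast
    nlinarith

lemma two_pow_le_qe (n : ℕ) : (2:ℤ) ^ n ≤ qe (n + 1) := by
  induction n with
  | zero => simp [qe]
  | succ n ih =>
    rw [qe_succ_succ, pow_succ]
    have h2 := qe_pos n
    have h1 := qe_pos (n + 1)
    nlinarith

lemma qe_tendsto : Filter.Tendsto (fun n => (qe (n + 1) : ℝ)) Filter.atTop Filter.atTop := by
  apply Filter.tendsto_atTop_mono (f := fun n : ℕ => (2:ℝ) ^ n)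
  · intro n
    exact_mod_cast two_pow_le_qe n
  · exact tendsto_pow_atTop_atTop_of_one_lt (by norm_num)

lemma J_tendsto : Filter.Tendsto J Filter.atTop (nhds 0) := by
  apply squeeze_zero (fun n => (J_pos n).le) (g := fun n => 2 / (qe (n + 1) : ℝ))
  · intro n
    have : (0:ℝ) < qe (n + 1) := by exact_mod_cast qe_pos (n + 1)
    rw [le_div_iff₀ this]
    exact J_mul_qe_le n
  · exact Filter.Tendsto.div_atTop tendsto_const_nhds qe_tendsto

/-- Measure of irrationality of `e`, in terms of the index `n`. -/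
theorem measure_aux (q : ℤ) (hq : 1 ≤ q) (p : ℤ) :
    ∃ n : ℕ, (2:ℝ) ^ n ≤ 4 * q ∧ 1 / (8 * (4 * n + 7) * (q:ℝ)) ≤ |(q:ℝ) * Real.exp 1 - p| := by
  have hq' : (1:ℝ) ≤ q := by exact_mod_cast hq
  -- least n with q * J n < 1/2
  have hex : ∃ n, (q:ℝ) * J n < 1 / 2 := by
    have h : Filter.Tendsto (fun n => (q:ℝ) * J n) Filter.atTop (nhds ((q:ℝ) * 0)) :=
      J_tendsto.const_mul _
    rw [mul_zero] at h
    exact (h.eventually_lt_const (by norm_num)).exists
  classical
  obtain ⟨m, hm⟩ : ∃ m, Nat.find hex = m + 1 := by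
    apply Nat.exists_eq_succ_of_ne_zero
    intro h0
    have := Nat.find_spec hex
    rw [h0, J_zero] at this
    have he := Real.add_one_lt_exp (x := 1) (by norm_num)
    nlinarith
  have hlt : (q:ℝ) * J (m + 1) < 1 / 2 := by
    have := Nat.find_spec hex
    rwa [hm] at this
  have hge : 1 / 2 ≤ (q:ℝ) * J m := by
    have := Nat.find_min hex (m := m) (by omega)
    push Not at this
    exact this
  have hlt2 : (q:ℝ) * J (m + 2) < 1 / 2 := by
    have := J_succ_le (m + 1)
    nlinarith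
  have hqm : (qe (m + 1) : ℝ) ≤ 4 * q := by
    have h1 := J_mul_qe_le m
    have h2 : (0:ℝ) < qe (m + 1) := by exact_mod_cast qe_pos (m + 1)
    have h3 := J_pos m
    have h5 : (1/2) * (qe (m+1) : ℝ) ≤ (q:ℝ) * J m * qe (m + 1) :=
      mul_le_mul_of_nonneg_right hge h2.le
    have h6 : (q:ℝ) * J m * qe (m + 1) ≤ q * 2 := by
      rw [mul_assoc]
      exact mul_le_mul_of_nonneg_left h1 (by linarith)
    linarith
  refine ⟨m, ?_, ?_⟩
  · have : ((2:ℤ) ^ m : ℤ) ≤ qe (m + 1) := two_pow_le_qe m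
    have : ((2:ℝ) ^ m) ≤ qe (m + 1) := by exact_mod_cast this
    linarith
  -- general step
  have step : ∀ k : ℕ, (q:ℝ) * J k < 1 / 2 → q * pe k - p * qe k ≠ 0 →
      1 / 2 ≤ (qe k : ℝ) * |(q:ℝ) * Real.exp 1 - p| := by
    intro k hk hne
    have h1 : (1:ℝ) ≤ |(q:ℝ) * pe k - p * qe k| := by
      have : (1:ℤ) ≤ |q * pe k - p * qe k| := Int.one_le_abs hne
      exact_mod_cast this
    have h2 : (q:ℝ) * pe k - p * qe k =
        - (q * ((qe k : ℝ) * Real.exp 1 - pe k)) + qe k * ((q:ℝ) * Real.exp 1 - p) := by ring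
    have h3 : |(q:ℝ) * pe k - p * qe k| ≤ q * J k + qe k * |(q:ℝ) * Real.exp 1 - p| := by
      rw [h2]
      refine (abs_add_le _ _).trans ?_
      rw [abs_neg, abs_mul, abs_mul, J_abs, abs_of_pos (by linarith : (0:ℝ) < q),
        abs_of_pos (by exact_mod_cast qe_pos k : (0:ℝ) < qe k)]
    linarith
  have hone : q * pe (m + 1) - p * qe (m + 1) ≠ 0 ∨ q * pe (m + 2) - p * qe (m + 2) ≠ 0 := by
    by_contra hcon
    push Not at hcon
    obtain ⟨ha, hb⟩ := hcon
    have hd := qe_det (m + 1)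
    have hz : q * (pe (m + 1) * qe (m + 1 + 1) - pe (m + 1 + 1) * qe (m + 1)) = 0 := by
      linear_combination qe (m + 2) * ha - qe (m + 1) * hb
    rw [hd] at hz
    rcases mul_eq_zero.mp hz with h | h
    · omega
    · rcases mul_eq_zero.mp h with h | h
      · exact absurd h (by positivity)
      · norm_num at h
  have hqm2 : (qe (m + 2) : ℝ) ≤ (4 * m + 7) * (4 * q) := by
    have h := qe_succ_le (m + 1)
    have h' : (qe (m + 2) : ℝ) ≤ (4 * (m + 1) + 3) * qe (m + 1) := by exact_mod_cast h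
    have h2 : (0:ℝ) ≤ 4 * m + 7 := by positivity
    calc (qe (m + 2) : ℝ) ≤ (4 * m + 7) * qe (m + 1) := by linarith
      _ ≤ (4 * m + 7) * (4 * q) := mul_le_mul_of_nonneg_left hqm h2
  have hqm1 : (qe (m + 1) : ℝ) ≤ (4 * m + 7) * (4 * q) := by
    have : (1:ℝ) ≤ 4 * m + 7 := by
      have : (0:ℝ) ≤ m := by positivity
      linarith
    nlinarith
  have fin : ∀ k : ℕ, (qe k : ℝ) ≤ (4 * m + 7) * (4 * q) →
      1 / 2 ≤ (qe k : ℝ) * |(q:ℝ) * Real.exp 1 - p| →
      1 / (8 * (4 * m + 7) * (q:ℝ)) ≤ |(q:ℝ) * Real.exp 1 - p| := by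
    intro k hk h
    have habs := abs_nonneg ((q:ℝ) * Real.exp 1 - p)
    have h1 : 1 / 2 ≤ (4 * m + 7) * (4 * q) * |(q:ℝ) * Real.exp 1 - p| :=
      h.trans (mul_le_mul_of_nonneg_right hk habs)
    have h2 : (0:ℝ) < 4 * m + 7 := by positivity
    rw [div_le_iff₀ (by positivity)]
    linarith
  rcases hone with h | h
  · exact fin (m + 1) hqm1 (step (m + 1) hlt h)
  · exact fin (m + 2) hqm2 (step (m + 2) hlt2 h)

end H3EP
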