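import Pool.Agent.H3.EP.Measure

namespace H3EP

/-- measure of irrationality of `e` for coefficients of any sign -/
theorem measure_abs (m n : ℤ) (hn : n ≠ 0) (M : ℝ) (hM : |(n:ℝ)| ≤ M) :
    1 / (200 * M * Real.log (M + 2)) ≤ |(m:ℝ) + n * Real.exp 1| := by
  have key : ∀ m n : ℤ, 1 ≤ n → (n:ℝ) ≤ M →
      1 / (200 * M * Real.log (M + 2)) ≤ |(m:ℝ) + n * Real.exp 1| := by
    intro m n hn hM
    have h := measure_log n hn (-m)
    have hn' : (1:ℝ) ≤ n := by exact_mod_cast hn
    have e : (n:ℝ) * Real.exp 1 - ((-m : ℤ) : ℝ) = (m:ℝ) + n * Real.exp 1 := by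
      push_cast; ring
    rw [e] at h
    refine le_trans ?_ h
    have h1 : 0 < Real.log (n + 2) := Real.log_pos (by linarith)
    have h2 : Real.log ((n:ℝ) + 2) ≤ Real.log (M + 2) := Real.log_le_log (by linarith) (by linarith)
    apply one_div_le_one_div_of_le (by positivity)
    have h3 : (200:ℝ) * n ≤ 200 * M := by linarith
    exact mul_le_mul h3 h2 h1.le (by linarith)
  rcases lt_or_gt_of_ne hn with h | h
  · have h1 := key (-m) (-n) (by omega) (by
      rw [abs_of_neg (by exact_mod_cast h)] at hM
      push_cast; exact hM)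
    have e : ((-m : ℤ) : ℝ) + ((-n : ℤ) : ℝ) * Real.exp 1 = -((m:ℝ) + n * Real.exp 1) := by
      push_cast; ring
    rw [e, abs_neg] at h1
    exact h1
  · exact key m n (by omega) (by
      rw [abs_of_pos (by exact_mod_cast h)] at hM
      exact hM)

/-- Two linearly independent integer linear forms in `1, e, y` cannot both be small. -/
theorem two_forms (y : ℝ) (H H' : ℝ) (hH : 3 ≤ H) (hHH : H ≤ H')
    (a b c a' b' c' : ℤ) (ha : |(a:ℝ)| ≤ H) (hb : |(b:ℝ)| ≤ H) (hc : |(c:ℝ)| ≤ H)
    (hb' : |(b':ℝ)| ≤ H') (hc' : |(c':ℝ)| ≤ H')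
    (hind : a * b' - a' * b ≠ 0 ∨ a * c' - a' * c ≠ 0 ∨ b * c' - b' * c ≠ 0) :
    1 / (800 * H * H' * Real.log (H * H')) ≤
      H' * |(a:ℝ) + b * Real.exp 1 + c * y| + H * |(a':ℝ) + b' * Real.exp 1 + c' * y| := by
  have hH' : 3 ≤ H' := hH.trans hHH
  set L : ℝ := (a:ℝ) + b * Real.exp 1 + c * y with hL
  set L' : ℝ := (a':ℝ) + b' * Real.exp 1 + c' * y with hL'
  have hx9 : 9 ≤ H * H' := by nlinarith
  have hlog : 1 ≤ Real.log (H * H') := by
    rw [Real.le_log_iff_exp_le (by linarith)]
    have := Real.exp_one_lt_d9
    linarith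
  have hsmall1 : 1 / (800 * H * H' * Real.log (H * H')) ≤ 1 := by
    rw [div_le_one (by positivity)]
    have : (1:ℝ) ≤ H * H' * Real.log (H * H') := by nlinarith
    nlinarith
  have hLab : |(c':ℝ) * L - c * L'| ≤ H' * |L| + H * |L'| := by
    refine (abs_sub _ _).trans ?_
    rw [abs_mul, abs_mul]
    have := abs_nonneg L
    have := abs_nonneg L'
    gcongr
  have hcomb : (c':ℝ) * L - c * L' = ((a * c' - a' * c : ℤ) : ℝ) + ((b * c' - b' * c : ℤ) : ℝ) * Real.exp 1 := by
    rw [hL, hL']; push_cast; ring
  by_cases hN : b * c' - b' * c = 0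
  · by_cases hm : a * c' - a' * c = 0
    · -- then c = c' = 0
      have hab : a * b' - a' * b ≠ 0 := by
        rcases hind with h | h | h
        · exact h
        · exact absurd hm h
        · exact absurd hN h
      have hc0 : c = 0 := by
        by_contra hc0
        apply hab
        have : c * (a * b' - a' * b) = 0 := by linear_combination (-a) * hN + b * hm
        rcases mul_eq_zero.mp this with h | h
        · exact absurd h hc0
        · exact h
      have hc0' : c' = 0 := by
        by_contra hc0'
        apply hab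
        have : c' * (a * b' - a' * b) = 0 := by linear_combination (-a') * hN + b' * hm
        rcases mul_eq_zero.mp this with h | h
        · exact absurd h hc0'
        · exact h
      have hL2 : L = (a:ℝ) + b * Real.exp 1 := by rw [hL, hc0]; simp
      by_cases hb0 : b = 0
      · have ha0 : a ≠ 0 := by
          rintro rfl
          apply hab
          rw [hb0]; ring
        have h1 : (1:ℝ) ≤ |(a:ℝ)| := by exact_mod_cast Int.one_le_abs ha0
        have h2 : |L| = |(a:ℝ)| := by rw [hL2, hb0]; simp
        have h3 := abs_nonneg L'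
        rw [h2]
        nlinarith
      · have h1 := measure_abs a b hb0 H hb
        rw [← hL2] at h1
        have h2 : Real.log (H + 2) ≤ 2 * Real.log (H * H') := by
          have : Real.log (H + 2) ≤ Real.log (H * H') :=
            Real.log_le_log (by linarith) (by nlinarith)
          linarith
        have h3 : 1 / (800 * H * H' * Real.log (H * H')) ≤ 1 / (200 * H * Real.log (H + 2)) := by
          apply one_div_le_one_div_of_le
          · have : 0 < Real.log (H + 2) := Real.log_pos (by linarith)
            positivity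
          · have h4 : 200 * H * Real.log (H + 2) ≤ 200 * H * (2 * Real.log (H * H')) :=
              mul_le_mul_of_nonneg_left h2 (by positivity)
            have h5 : H * Real.log (H * H') ≤ H * H' * Real.log (H * H') := by
              apply mul_le_mul_of_nonneg_right _ (by linarith)
              nlinarith
            nlinarith
        have h6 := abs_nonneg L'
        have h7 := abs_nonneg L
        nlinarith
    · -- the combination is a nonzero integer
      have h1 : (1:ℝ) ≤ |(c':ℝ) * L - c * L'| := by
        rw [hcomb, hN]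
        have : (1:ℤ) ≤ |a * c' - a' * c| := Int.one_le_abs hm
        simpa using (show (1:ℝ) ≤ |((a * c' - a' * c : ℤ) : ℝ)| by exact_mod_cast this)
      linarith
  · have hNb : |((b * c' - b' * c : ℤ) : ℝ)| ≤ 2 * (H * H') := by
      push_cast
      refine (abs_sub _ _).trans ?_
      rw [abs_mul, abs_mul]
      have h1 : |(b:ℝ)| * |(c':ℝ)| ≤ H * H' := mul_le_mul hb hc' (abs_nonneg _) (by linarith)
      have h2 : |(b':ℝ)| * |(c:ℝ)| ≤ H' * H := mul_le_mul hb' hc (abs_nonneg _) (by linarith)
      linarith
    have h1 := measure_abs (a * c' - a' * c) (b * c' - b' * c) hN _ hNb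
    rw [← hcomb] at h1
    refine le_trans ?_ (h1.trans hLab)
    apply one_div_le_one_div_of_le
    · have : 0 < Real.log (2 * (H * H') + 2) := Real.log_pos (by linarith)
      positivity
    · have h2 : Real.log (2 * (H * H') + 2) ≤ 2 * Real.log (H * H') := by
        have : Real.log ((H * H') ^ 2) = 2 * Real.log (H * H') := by
          rw [Real.log_pow]; norm_num
        rw [← this]
        exact Real.log_le_log (by linarith) (by nlinarith)
      have h3 : 200 * (2 * (H * H')) * Real.log (2 * (H * H') + 2)
          ≤ 200 * (2 * (H * H')) * (2 * Real.log (H * H')) :=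
        mul_le_mul_of_nonneg_left h2 (by positivity)
      nlinarith

end H3EP
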