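import Pool.Agent.H3.EP.EBasic

namespace H3EP

open Filter Topology

/-- Measure of irrationality of `e` with a logarithm. -/
theorem measure_log (q : ℤ) (hq : 1 ≤ q) (p : ℤ) :
    1 / (200 * (q:ℝ) * Real.log (q + 2)) ≤ |(q:ℝ) * Real.exp 1 - p| := by
  obtain ⟨n, hn, h⟩ := measure_aux q hq p
  refine le_trans ?_ h
  have hq' : (1:ℝ) ≤ q := by exact_mod_cast hq
  have hl2 : (0.6931471803:ℝ) < Real.log 2 := Real.log_two_gt_d9
  have hl2' : Real.log 2 < (0.6931471808:ℝ) := Real.log_two_lt_d9
  have hl3 : (1:ℝ) ≤ Real.log (q + 2) := by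
    rw [Real.le_log_iff_exp_le (by linarith)]
    have := Real.exp_one_lt_d9
    linarith
  have h4 : Real.log (4 * q) ≤ 2.39 * Real.log (q + 2) := by
    rw [Real.log_mul (by norm_num) (by linarith)]
    have h1 : Real.log 4 = 2 * Real.log 2 := by
      rw [show (4:ℝ) = 2 ^ 2 by norm_num, Real.log_pow]; norm_num
    have h2 : Real.log q ≤ Real.log (q + 2) := Real.log_le_log (by linarith) (by linarith)
    nlinarith
  have hnl : (n:ℝ) * Real.log 2 ≤ Real.log (4 * q) := by
    rw [← Real.log_pow]
    exact Real.log_le_log (by positivity) hn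
  have hn0 : (0:ℝ) ≤ n := by positivity
  have hnb : (n:ℝ) ≤ 3.5 * Real.log (q + 2) := by
    nlinarith
  apply one_div_le_one_div_of_le (by positivity)
  have : 8 * (4 * (n:ℝ) + 7) ≤ 200 * Real.log (q + 2) := by nlinarith
  nlinarith

theorem exp_ne_rat (q p : ℤ) (h : (q:ℝ) * Real.exp 1 - p = 0) : q = 0 := by
  by_contra hq
  have key : ∀ q p : ℤ, 1 ≤ q → (q:ℝ) * Real.exp 1 - p ≠ 0 := by
    intro q p hq h0
    have := measure_log q hq p
    rw [h0, abs_zero] at this
    have hq' : (1:ℝ) ≤ q := by exact_mod_cast hq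
    have hpos : 0 < 1 / (200 * (q:ℝ) * Real.log (q + 2)) := by
      have := Real.log_pos (show (1:ℝ) < q + 2 by linarith)
      positivity
    linarith
  rcases lt_or_gt_of_ne hq with h1 | h1
  · apply key (-q) (-p) (by omega)
    push_cast
    linarith
  · exact key q p (by omega) h

/-- `1, e, y` linearly dependent over `ℚ` iff some nontrivial integer relation. -/
theorem not_li_iff (y : ℝ) :
    (¬ LinearIndependent ℚ ![(1:ℝ), Real.exp 1, y]) ↔
      ∃ a b : ℤ, ∃ c : ℤ, 0 < c ∧ (a:ℝ) + b * Real.exp 1 + c * y = 0 := by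
  constructor
  · intro h
    rw [Fintype.not_linearIndependent_iff] at h
    obtain ⟨g, hg, i, hi⟩ := h
    simp only [Fin.sum_univ_three, Matrix.cons_val_zero, Matrix.cons_val_one,
      Matrix.cons_val, Rat.smul_def] at hg
    -- common denominator
    set D : ℤ := (g 0).den * (g 1).den * (g 2).den with hD
    have hDpos : 0 < D := by positivity
    have h0 : ((g 0 : ℚ) : ℝ) * D = ((g 0).num * (g 1).den * (g 2).den : ℤ) := by
      have : (g 0 : ℚ) * (g 0).den = (g 0).num := Rat.mul_den_eq_num _
      have h' : (((g 0 : ℚ) * (g 0).den : ℚ) : ℝ) = (((g 0).num : ℚ) : ℝ) := by rw [this]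
      push_cast at h' ⊢
      rw [hD]; push_cast
      linear_combination ((g 1).den * (g 2).den : ℝ) * h'
    have h1 : ((g 1 : ℚ) : ℝ) * D = ((g 1).num * (g 0).den * (g 2).den : ℤ) := by
      have : (g 1 : ℚ) * (g 1).den = (g 1).num := Rat.mul_den_eq_num _
      have h' : (((g 1 : ℚ) * (g 1).den : ℚ) : ℝ) = (((g 1).num : ℚ) : ℝ) := by rw [this]
      push_cast at h' ⊢
      rw [hD]; push_cast
      linear_combination ((g 0).den * (g 2).den : ℝ) * h'
    have h2 : ((g 2 : ℚ) : ℝ) * D = ((g 2).num * (g 0).den * (g 1).den : ℤ) := by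
      have : (g 2 : ℚ) * (g 2).den = (g 2).num := Rat.mul_den_eq_num _
      have h' : (((g 2 : ℚ) * (g 2).den : ℚ) : ℝ) = (((g 2).num : ℚ) : ℝ) := by rw [this]
      push_cast at h' ⊢
      rw [hD]; push_cast
      linear_combination ((g 0).den * (g 1).den : ℝ) * h'
    set A : ℤ := (g 0).num * (g 1).den * (g 2).den with hA
    set B : ℤ := (g 1).num * (g 0).den * (g 2).den with hB
    set C : ℤ := (g 2).num * (g 0).den * (g 1).den with hC
    have hrel : (A:ℝ) + B * Real.exp 1 + C * y = 0 := by
      rw [← h0, ← h1, ← h2]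
      linear_combination (D:ℝ) * hg
    have hC0 : C ≠ 0 := by
      intro hC0
      rw [hC0] at hrel
      have hB0 : B = 0 := by
        apply exp_ne_rat B (-A)
        push_cast
        push_cast at hrel
        linarith
      have hA0 : A = 0 := by
        rw [hB0] at hrel
        push_cast at hrel
        have : (A:ℝ) = 0 := by linarith
        exact_mod_cast this
      have hDR : (D:ℝ) ≠ 0 := by exact_mod_cast hDpos.ne'
      have g0 : g 0 = 0 := by
        have : ((g 0 : ℚ) : ℝ) * D = 0 := by rw [h0, hA0]; simp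
        rcases mul_eq_zero.mp this with h | h
        · exact_mod_cast h
        · exact absurd h hDR
      have g1 : g 1 = 0 := by
        have : ((g 1 : ℚ) : ℝ) * D = 0 := by rw [h1, hB0]; simp
        rcases mul_eq_zero.mp this with h | h
        · exact_mod_cast h
        · exact absurd h hDR
      have g2 : g 2 = 0 := by
        have : ((g 2 : ℚ) : ℝ) * D = 0 := by rw [h2, hC0]; simp
        rcases mul_eq_zero.mp this with h | h
        · exact_mod_cast h
        · exact absurd h hDR
      fin_cases i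
      · exact hi g0
      · exact hi g1
      · exact hi g2
    rcases lt_or_gt_of_ne hC0 with hneg | hpos
    · refine ⟨-A, -B, -C, by omega, ?_⟩
      push_cast
      linarith
    · exact ⟨A, B, C, hpos, hrel⟩
  · rintro ⟨a, b, c, hc, h⟩
    rw [Fintype.not_linearIndependent_iff]
    refine ⟨![(a:ℚ), (b:ℚ), (c:ℚ)], ?_, 2, ?_⟩
    · simp only [Fin.sum_univ_three, Matrix.cons_val_zero, Matrix.cons_val_one,
        Matrix.cons_val, Rat.smul_def]
      push_cast
      linarith
    · simp only [Matrix.cons_val]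
      exact_mod_cast hc.ne'

end H3EP
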