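import Mathlib

namespace H3EP

/-- Abstract sequence of minimal points. -/
theorem exists_minseq {V : Type*} (h : V → ℕ) (l : V → ℝ)
    (hfin : ∀ N : ℕ, {v | h v ≤ N}.Finite) [hV : Nonempty V]
    (hsm : ∀ v, ∃ u, l u < l v) :
    ∃ x : ℕ → V, (∀ n, h (x n) < h (x (n + 1))) ∧ (∀ n, l (x (n + 1)) < l (x n)) ∧
      (∀ n u, h u < h (x (n + 1)) → l (x n) ≤ l u) := by
  classical
  have next : ∀ v : V, (∀ u, h u ≤ h v → l v ≤ l u) → ∃ v' : V,
      (∀ u, h u ≤ h v' → l v' ≤ l u) ∧ h v < h v' ∧ l v' < l v ∧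
        ∀ u, h u < h v' → l v ≤ l u := by
    intro v hv
    have hex : ∃ N, ∃ u, h u = N ∧ l u < l v := by
      obtain ⟨u, hu⟩ := hsm v
      exact ⟨h u, u, rfl, hu⟩
    obtain ⟨u0, hu0, hlu0⟩ := Nat.find_spec hex
    set N := Nat.find hex with hN
    obtain ⟨v', hv'1, hv'2⟩ := Set.exists_min_image {u | h u ≤ N} l (hfin N) ⟨u0, hu0.le⟩
    have hl : l v' < l v := lt_of_le_of_lt (hv'2 u0 hu0.le) hlu0
    have hmin : ∀ u, h u < N → l v ≤ l u := by
      intro u hu
      by_contra hcon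
      push Not at hcon
      exact Nat.find_min hex (m := h u) hu ⟨u, rfl, hcon⟩
    have hhv' : h v' = N := by
      rcases lt_or_eq_of_le (show h v' ≤ N from hv'1) with hlt | heq
      · have := hmin v' hlt
        linarith
      · exact heq
    refine ⟨v', ?_, ?_, hl, ?_⟩
    · intro u hu
      rw [hhv'] at hu
      exact hv'2 u hu
    · by_contra hcon
      push Not at hcon
      have := hv v' hcon
      linarith
    · intro u hu
      rw [hhv'] at hu
      exact hmin u hu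
  have init : ∃ v : V, ∀ u, h u ≤ h v → l v ≤ l u := by
    obtain ⟨v0⟩ := hV
    obtain ⟨v, hv1, hv2⟩ := Set.exists_min_image {u | h u ≤ h v0} l (hfin _) ⟨v0, le_refl (h v0)⟩
    exact ⟨v, fun u hu => hv2 u (hu.trans hv1)⟩
  choose! f hf using next
  obtain ⟨v0, hv0⟩ := init
  let x : ℕ → V := fun n => Nat.rec v0 (fun _ v => f v) n
  have hx0 : x 0 = v0 := rfl
  have hxs : ∀ n, x (n + 1) = f (x n) := fun n => rfl
  have hmin : ∀ n, ∀ u, h u ≤ h (x n) → l (x n) ≤ l u := by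
    intro n
    induction n with
    | zero => rw [hx0]; exact hv0
    | succ n ih =>
      rw [hxs]
      exact (hf (x n) ih).1
  refine ⟨x, ?_, ?_, ?_⟩
  · intro n
    rw [hxs]
    exact (hf (x n) (hmin n)).2.1
  · intro n
    rw [hxs]
    exact (hf (x n) (hmin n)).2.2.1
  · intro n u hu
    rw [hxs] at hu
    exact (hf (x n) (hmin n)).2.2.2 u hu

lemma minseq_ge {V : Type*} (h : V → ℕ) (x : ℕ → V) (hx : ∀ n, h (x n) < h (x (n + 1))) (n : ℕ) :
    n ≤ h (x n) := by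
  induction n with
  | zero => exact Nat.zero_le _
  | succ n ih => have := hx n; omega

/-- cross product of integer vectors, by coordinates -/
def cr0 (a b : Fin 3 → ℤ) : ℤ := a 1 * b 2 - a 2 * b 1
def cr1 (a b : Fin 3 → ℤ) : ℤ := a 2 * b 0 - a 0 * b 2
def cr2 (a b : Fin 3 → ℤ) : ℤ := a 0 * b 1 - a 1 * b 0

/-- the determinant of three integer vectors -/
def det3 (a b c : Fin 3 → ℤ) : ℤ := cr0 a b * c 0 + cr1 a b * c 1 + cr2 a b * c 2

/-- If all consecutive triples are dependent and all consecutive pairs are independent, then all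
vectors lie in one plane. -/
theorem planar (x : ℕ → Fin 3 → ℤ) (N : ℕ)
    (hind : ∀ n ≥ N, cr0 (x n) (x (n + 1)) ≠ 0 ∨ cr1 (x n) (x (n + 1)) ≠ 0 ∨
      cr2 (x n) (x (n + 1)) ≠ 0)
    (hdet : ∀ n ≥ N, det3 (x n) (x (n + 1)) (x (n + 2)) = 0) :
    ∃ w : Fin 3 → ℤ, (w 0 ≠ 0 ∨ w 1 ≠ 0 ∨ w 2 ≠ 0) ∧
      ∀ n ≥ N, w 0 * x n 0 + w 1 * x n 1 + w 2 * x n 2 = 0 := by
  refine ⟨![cr0 (x N) (x (N + 1)), cr1 (x N) (x (N + 1)), cr2 (x N) (x (N + 1))],
    by simpa using hind N le_rfl, ?_⟩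
  set w : Fin 3 → ℤ := ![cr0 (x N) (x (N + 1)), cr1 (x N) (x (N + 1)), cr2 (x N) (x (N + 1))]
    with hw
  have hw0 : w 0 = cr0 (x N) (x (N + 1)) := by simp [hw]
  have hw1 : w 1 = cr1 (x N) (x (N + 1)) := by simp [hw]
  have hw2 : w 2 = cr2 (x N) (x (N + 1)) := by simp [hw]
  have key : ∀ k, (w 0 * x (N + k) 0 + w 1 * x (N + k) 1 + w 2 * x (N + k) 2 = 0) ∧
      (w 0 * x (N + k + 1) 0 + w 1 * x (N + k + 1) 1 + w 2 * x (N + k + 1) 2 = 0) := by
    intro k
    induction k with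
    | zero =>
      constructor
      · simp only [add_zero]
        rw [hw0, hw1, hw2]; unfold cr0 cr1 cr2; ring
      · simp only [add_zero]
        rw [hw0, hw1, hw2]; unfold cr0 cr1 cr2; ring
    | succ k ih =>
      obtain ⟨h1, h2⟩ := ih
      refine ⟨h2, ?_⟩
      have e1 : N + (k + 1) + 1 = N + k + 2 := by ring
      rw [e1]
      have hd := hdet (N + k) (by omega)
      have hi := hind (N + k) (by omega)
      set a := x (N + k)
      set b := x (N + k + 1)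
      set c := x (N + k + 2)
      unfold det3 cr0 cr1 cr2 at hd
      unfold cr0 cr1 cr2 at hi
      have k0 : (a 1 * b 2 - a 2 * b 1) * (w 0 * c 0 + w 1 * c 1 + w 2 * c 2) = 0 := by
        linear_combination (w 0) * hd - (b 1 * c 2 - b 2 * c 1) * h1 - (c 1 * a 2 - c 2 * a 1) * h2
      have k1 : (a 2 * b 0 - a 0 * b 2) * (w 0 * c 0 + w 1 * c 1 + w 2 * c 2) = 0 := by
        linear_combination (w 1) * hd - (b 2 * c 0 - b 0 * c 2) * h1 - (c 2 * a 0 - c 0 * a 2) * h2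
      have k2 : (a 0 * b 1 - a 1 * b 0) * (w 0 * c 0 + w 1 * c 1 + w 2 * c 2) = 0 := by
        linear_combination (w 2) * hd - (b 0 * c 1 - b 1 * c 0) * h1 - (c 0 * a 1 - c 1 * a 0) * h2
      rcases hi with hi | hi | hi
      · exact (mul_eq_zero.mp k0).resolve_left hi
      · exact (mul_eq_zero.mp k1).resolve_left hi
      · exact (mul_eq_zero.mp k2).resolve_left hi
  intro n hn
  obtain ⟨k, rfl⟩ := Nat.exists_eq_add_of_le hn
  exact (key k).1

end H3EP
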