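import Mathlib

/-!
An explicit lower bound for the distance of `c * π` to the integers, from Niven's integrals.
-/

namespace H3EP

open MeasureTheory intervalIntegral Real

/-- Niven's integrals. -/
noncomputable def KI (n : ℕ) : ℝ :=
  ∫ x in (0:ℝ)..π, (x * (π - x)) ^ n / (n.factorial : ℝ) * Real.sin x

lemma KI_cont (n : ℕ) :
    Continuous (fun x : ℝ => (x * (π - x)) ^ n / (n.factorial : ℝ) * Real.sin x) := by
  fun_prop

lemma hasDeriv_u (x : ℝ) : HasDerivAt (fun x : ℝ => x * (π - x)) (π - 2 * x) x := by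
  have := (hasDerivAt_id x).mul ((hasDerivAt_id x).const_sub π)
  refine HasDerivAt.congr_deriv (f := fun x : ℝ => x * (π - x)) this ?_
  simp; ring

lemma KI_zero : KI 0 = 2 := by
  unfold KI
  have : ∀ x : ℝ, (x * (π - x)) ^ 0 / ((Nat.factorial 0 : ℕ) : ℝ) * Real.sin x = Real.sin x := by
    intro x; simp
  simp only [this]
  rw [integral_sin]; simp; norm_num

lemma KI_one : KI 1 = 4 := by
  unfold KI
  have hd : ∀ x ∈ Set.uIcc (0:ℝ) π, HasDerivAt
      (fun x : ℝ => -(x * (π - x)) * Real.cos x + (π - 2 * x) * Real.sin x - 2 * Real.cos x)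
      ((x * (π - x)) ^ 1 / ((Nat.factorial 1 : ℕ) : ℝ) * Real.sin x) x := by
    intro x _
    have h1 := (hasDeriv_u x).neg.mul (Real.hasDerivAt_cos x)
    have h2 : HasDerivAt (fun x : ℝ => π - 2 * x) (-2) x := by
      have := ((hasDerivAt_id x).const_mul 2).const_sub π
      refine HasDerivAt.congr_deriv (f := fun x : ℝ => π - 2 * x) this ?_
      simp
    have h3 := h2.mul (Real.hasDerivAt_sin x)
    have h4 := ((Real.hasDerivAt_cos x).const_mul 2)
    have h5 := (h1.add h3).sub h4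
    refine HasDerivAt.congr_deriv (f := fun x : ℝ => -(x * (π - x)) * Real.cos x
      + (π - 2 * x) * Real.sin x - 2 * Real.cos x) h5 ?_
    simp
    ring
  rw [intervalIntegral.integral_eq_sub_of_hasDerivAt hd ((KI_cont 1).intervalIntegrable _ _)]
  simp
  norm_num

lemma KI_rec (n : ℕ) : KI (n + 2) = (4 * n + 6) * KI (n + 1) - π ^ 2 * KI n := by
  have key : ∫ x in (0:ℝ)..π, ((x * (π - x)) ^ (n + 2) / ((n + 2).factorial : ℝ) * Real.sin x
      - (4 * n + 6) * ((x * (π - x)) ^ (n + 1) / ((n + 1).factorial : ℝ) * Real.sin x)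
      + π ^ 2 * ((x * (π - x)) ^ n / (n.factorial : ℝ) * Real.sin x)) = 0 := by
    have hd : ∀ x ∈ Set.uIcc (0:ℝ) π, HasDerivAt
        (fun x : ℝ => -((x * (π - x)) ^ (n + 2) / ((n + 2).factorial : ℝ)) * Real.cos x
          + ((x * (π - x)) ^ (n + 1) * (π - 2 * x) / ((n + 1).factorial : ℝ)) * Real.sin x)
        ((x * (π - x)) ^ (n + 2) / ((n + 2).factorial : ℝ) * Real.sin x
      - (4 * n + 6) * ((x * (π - x)) ^ (n + 1) / ((n + 1).factorial : ℝ) * Real.sin x)
      + π ^ 2 * ((x * (π - x)) ^ n / (n.factorial : ℝ) * Real.sin x)) x := by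
      intro x _
      have hu2 : HasDerivAt (fun x : ℝ => (x * (π - x)) ^ (n + 2))
          (((n + 2 : ℕ) : ℝ) * (x * (π - x)) ^ (n + 1) * (π - 2 * x)) x := by
        have := (hasDeriv_u x).pow (n + 2)
        exact this
      have hu1 : HasDerivAt (fun x : ℝ => (x * (π - x)) ^ (n + 1))
          (((n + 1 : ℕ) : ℝ) * (x * (π - x)) ^ n * (π - 2 * x)) x := by
        have := (hasDeriv_u x).pow (n + 1)
        exact this
      have h2 : HasDerivAt (fun x : ℝ => π - 2 * x) (-2) x := by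
        have := ((hasDerivAt_id x).const_mul 2).const_sub π
        refine HasDerivAt.congr_deriv (f := fun x : ℝ => π - 2 * x) this ?_
        simp
      have g1 := (hu2.div_const ((n + 2).factorial : ℝ)).neg.mul (Real.hasDerivAt_cos x)
      have g2 := ((hu1.mul h2).div_const ((n + 1).factorial : ℝ)).mul (Real.hasDerivAt_sin x)
      have g := g1.add g2
      refine HasDerivAt.congr_deriv (f := fun x : ℝ =>
        -((x * (π - x)) ^ (n + 2) / ((n + 2).factorial : ℝ)) * Real.cos x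
          + ((x * (π - x)) ^ (n + 1) * (π - 2 * x) / ((n + 1).factorial : ℝ)) * Real.sin x) g ?_
      have hf : (n.factorial : ℝ) ≠ 0 := by positivity
      have f1 : (((n + 1).factorial : ℕ) : ℝ) = (n + 1) * n.factorial := by
        rw [Nat.factorial_succ]; push_cast; ring
      have f2 : (((n + 2).factorial : ℕ) : ℝ) = (n + 2) * ((n + 1) * n.factorial) := by
        rw [Nat.factorial_succ, Nat.factorial_succ]; push_cast; ring
      have hn1 : (n:ℝ) + 1 ≠ 0 := by positivity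
      have hn2 : (n:ℝ) + 2 ≠ 0 := by positivity
      simp only [Pi.mul_apply, Pi.neg_apply]
      rw [f1, f2]
      push_cast
      rw [pow_succ, pow_succ]
      field_simp
      ring
    rw [intervalIntegral.integral_eq_sub_of_hasDerivAt hd]
    · simp
    · apply Continuous.intervalIntegrable
      fun_prop
  rw [intervalIntegral.integral_add, intervalIntegral.integral_sub,
    intervalIntegral.integral_const_mul, intervalIntegral.integral_const_mul] at key
  · unfold KI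
    linarith
  · exact (KI_cont (n+2)).intervalIntegrable _ _
  · exact ((KI_cont (n+1)).const_smul ((4 * n + 6 : ℝ))).intervalIntegrable _ _
  · exact ((KI_cont (n+2)).sub ((KI_cont (n+1)).const_smul ((4 * n + 6 : ℝ)))).intervalIntegrable _ _
  · exact ((KI_cont n).const_smul (π ^ 2 : ℝ)).intervalIntegrable _ _

lemma KI_abs_le (n : ℕ) : |KI n| ≤ 4 * ((5 / 2) ^ n / (n.factorial : ℝ)) := by
  unfold KI
  have hpi : π < 3.15 := Real.pi_lt_d2
  have hpi0 : 0 < π := Real.pi_pos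
  have h := intervalIntegral.norm_integral_le_of_norm_le_const
    (a := 0) (b := π) (C := (5 / 2) ^ n / (n.factorial : ℝ))
    (f := fun x : ℝ => (x * (π - x)) ^ n / (n.factorial : ℝ) * Real.sin x) (by
      intro x hx
      rw [Set.uIoc_of_le hpi0.le] at hx
      have hx0 : 0 < x := hx.1
      have hx1 : 0 ≤ π - x := by linarith [hx.2]
      have hu0 : 0 ≤ x * (π - x) := by positivity
      have hu1 : x * (π - x) ≤ 5 / 2 := by nlinarith [sq_nonneg (x - π / 2)]
      rw [norm_mul, Real.norm_eq_abs, Real.norm_eq_abs, abs_of_nonneg (by positivity)]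
      have h1 : (x * (π - x)) ^ n / (n.factorial : ℝ) ≤ (5 / 2) ^ n / (n.factorial : ℝ) := by
        gcongr
      have h2 := Real.abs_sin_le_one x
      have h3 := abs_nonneg (Real.sin x)
      have h4 : 0 ≤ (x * (π - x)) ^ n / (n.factorial : ℝ) := by positivity
      calc (x * (π - x)) ^ n / (n.factorial : ℝ) * |Real.sin x|
          ≤ (x * (π - x)) ^ n / (n.factorial : ℝ) * 1 := mul_le_mul_of_nonneg_left h2 h4
        _ ≤ (5 / 2) ^ n / (n.factorial : ℝ) := by rw [mul_one]; exact h1)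
  rw [Real.norm_eq_abs] at h
  refine h.trans ?_
  rw [sub_zero, abs_of_pos hpi0, mul_comm]
  apply mul_le_mul_of_nonneg_right _ (by positivity)
  linarith

/-- The polynomials `F_n(t)` with `K_n = F_n(π²)`. -/
noncomputable def Fp (t : ℝ) : ℕ → ℝ
  | 0 => 2
  | 1 => 4
  | (n + 2) => (4 * n + 6) * Fp t (n + 1) - t * Fp t n

lemma Fp_pi (n : ℕ) : Fp (π ^ 2) n = KI n := by
  induction n using Nat.strong_induction_on with
  | _ n ih =>
    match n, ih with
    | 0, _ => simp [Fp, KI_zero]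
    | 1, _ => simp [Fp, KI_one]
    | (n + 2), ih =>
      rw [Fp, ih (n + 1) (by omega), ih n (by omega), KI_rec]

/-- growth of `F_n` -/
lemma Fp_bound (t : ℝ) (ht : |t| ≤ 16) (n : ℕ) : |Fp t n| ≤ 4 * (20 ^ n * (n.factorial : ℝ)) := by
  induction n using Nat.strong_induction_on with
  | _ n ih =>
    match n, ih with
    | 0, _ => simp [Fp]; norm_num
    | 1, _ => simp [Fp]
    | (n + 2), ih =>
      have h1 := ih (n + 1) (by omega)
      have h0 := ih n (by omega)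
      have f1 : (((n + 1).factorial : ℕ) : ℝ) = (n + 1) * n.factorial := by
        rw [Nat.factorial_succ]; push_cast; ring
      have f2 : (((n + 2).factorial : ℕ) : ℝ) = (n + 2) * ((n + 1) * n.factorial) := by
        rw [Nat.factorial_succ, Nat.factorial_succ]; push_cast; ring
      rw [Fp]
      have hA : (0:ℝ) < 20 ^ n * n.factorial := by positivity
      have e1 : |(4 * (n:ℝ) + 6) * Fp t (n + 1)| ≤ (4 * n + 6) * (4 * (20 ^ (n + 1) * ((n + 1).factorial : ℝ))) := by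
        rw [abs_mul, abs_of_pos (by positivity : (0:ℝ) < 4 * (n:ℝ) + 6)]
        exact mul_le_mul_of_nonneg_left h1 (by positivity)
      have e2 : |t * Fp t n| ≤ 16 * (4 * (20 ^ n * (n.factorial : ℝ))) := by
        rw [abs_mul]
        exact mul_le_mul ht h0 (abs_nonneg _) (by norm_num)
      refine (abs_sub _ _).trans ?_
      rw [f1] at e1
      rw [f2]
      have e3 : (4 * (n:ℝ) + 6) * (4 * (20 ^ (n + 1) * (((n:ℝ) + 1) * (n.factorial : ℝ))))
          = (4 * (n:ℝ) + 6) * 80 * (n + 1) * (20 ^ n * n.factorial) := by rw [pow_succ]; ring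
      have e4 : 4 * ((20:ℝ) ^ (n + 2) * (((n:ℝ) + 2) * (((n:ℝ) + 1) * n.factorial)))
          = 1600 * (n + 2) * (n + 1) * (20 ^ n * n.factorial) := by rw [pow_succ, pow_succ]; ring
      rw [e4]
      rw [e3] at e1
      have hn0 : (0:ℝ) ≤ n := by positivity
      have e5 : (4 * (n:ℝ) + 6) * 80 * (n + 1) + 64 ≤ 1600 * (n + 2) * (n + 1) := by nlinarith
      have e6 := mul_le_mul_of_nonneg_right e5 hA.le
      linarith

/-- Lipschitz bound of `F_n` -/
lemma Fp_lip (s t : ℝ) (hs : |s| ≤ 16) (ht : |t| ≤ 16) (n : ℕ) :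
    |Fp s n - Fp t n| ≤ 4 * (20 ^ n * (n.factorial : ℝ)) * |s - t| := by
  induction n using Nat.strong_induction_on with
  | _ n ih =>
    match n, ih with
    | 0, _ => simp [Fp]
    | 1, _ => simp [Fp]
    | (n + 2), ih =>
      have h1 := ih (n + 1) (by omega)
      have h0 := ih n (by omega)
      have hb := Fp_bound t ht n
      have f1 : (((n + 1).factorial : ℕ) : ℝ) = (n + 1) * n.factorial := by
        rw [Nat.factorial_succ]; push_cast; ring
      have f2 : (((n + 2).factorial : ℕ) : ℝ) = (n + 2) * ((n + 1) * n.factorial) := by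
        rw [Nat.factorial_succ, Nat.factorial_succ]; push_cast; ring
      have hd0 := abs_nonneg (s - t)
      have hA : (0:ℝ) < 20 ^ n * n.factorial := by positivity
      have e0 : Fp s (n + 2) - Fp t (n + 2) = (4 * n + 6) * (Fp s (n + 1) - Fp t (n + 1))
          - s * (Fp s n - Fp t n) - (s - t) * Fp t n := by
        rw [Fp, Fp]; ring
      rw [e0]
      have e1 : |(4 * (n:ℝ) + 6) * (Fp s (n + 1) - Fp t (n + 1))|
          ≤ (4 * n + 6) * (4 * (20 ^ (n + 1) * ((n + 1).factorial : ℝ)) * |s - t|) := by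
        rw [abs_mul, abs_of_pos (by positivity : (0:ℝ) < 4 * (n:ℝ) + 6)]
        exact mul_le_mul_of_nonneg_left h1 (by positivity)
      have e2 : |s * (Fp s n - Fp t n)| ≤ 16 * (4 * (20 ^ n * (n.factorial : ℝ)) * |s - t|) := by
        rw [abs_mul]
        exact mul_le_mul hs h0 (abs_nonneg _) (by norm_num)
      have e3 : |(s - t) * Fp t n| ≤ |s - t| * (4 * (20 ^ n * (n.factorial : ℝ))) := by
        rw [abs_mul]
        exact mul_le_mul_of_nonneg_left hb hd0
      refine (abs_sub _ _).trans ?_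
      refine (add_le_add_left (abs_sub _ _) _).trans ?_
      rw [f1] at e1
      rw [f2]
      have e4 : (4 * (n:ℝ) + 6) * (4 * (20 ^ (n + 1) * (((n:ℝ) + 1) * (n.factorial : ℝ))) * |s - t|)
          = (4 * (n:ℝ) + 6) * 80 * (n + 1) * ((20 ^ n * n.factorial) * |s - t|) := by
        rw [pow_succ]; ring
      have e5 : 4 * ((20:ℝ) ^ (n + 2) * (((n:ℝ) + 2) * (((n:ℝ) + 1) * n.factorial))) * |s - t|
          = 1600 * (n + 2) * (n + 1) * ((20 ^ n * n.factorial) * |s - t|) := by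
        rw [pow_succ, pow_succ]; ring
      rw [e5]
      rw [e4] at e1
      have hn0 : (0:ℝ) ≤ n := by positivity
      have e6 : (4 * (n:ℝ) + 6) * 80 * (n + 1) + 64 + 4 ≤ 1600 * (n + 2) * (n + 1) := by nlinarith
      have hA2 : (0:ℝ) ≤ (20 ^ n * n.factorial) * |s - t| := by positivity
      have e7 := mul_le_mul_of_nonneg_right e6 hA2
      linarith

/-- integer versions : `c^n F_n(p²/c²)` -/
def Gp (p c : ℤ) : ℕ → ℤ
  | 0 => 2
  | 1 => 4 * c
  | (n + 2) => (4 * n + 6) * c * Gp p c (n + 1) - p ^ 2 * Gp p c n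

lemma Gp_eq (p c : ℤ) (hc : c ≠ 0) (n : ℕ) :
    (Gp p c n : ℝ) = (c:ℝ) ^ n * Fp (((p:ℝ) / c) ^ 2) n := by
  have hc' : (c:ℝ) ≠ 0 := by exact_mod_cast hc
  induction n using Nat.strong_induction_on with
  | _ n ih =>
    match n, ih with
    | 0, _ => simp [Gp, Fp]
    | 1, _ => simp [Gp, Fp]; ring
    | (n + 2), ih =>
      have h1 := ih (n + 1) (by omega)
      have h0 := ih n (by omega)
      rw [Gp, Fp]
      push_cast
      rw [h1, h0]
      field_simp
      ring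

lemma Gp_ne (p c : ℤ) (hp : p ≠ 0) (n : ℕ) : Gp p c n ≠ 0 ∨ Gp p c (n + 1) ≠ 0 := by
  induction n with
  | zero => left; simp [Gp]
  | succ n ih =>
    by_contra hcon
    push Not at hcon
    obtain ⟨h1, h2⟩ := hcon
    rw [Gp, h1] at h2
    have h3 : p ^ 2 * Gp p c n = 0 := by linarith
    rcases mul_eq_zero.mp h3 with h | h
    · exact hp (pow_eq_zero_iff (by norm_num) |>.mp h)
    · rcases ih with h' | h'
      · exact h' h
      · exact h' h1

/-- The weak irrationality measure of `π`. -/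
theorem pi_measure (c : ℕ) (hc : 1 ≤ c) (p : ℤ) :
    1 / ((c:ℝ) + 1) ^ (240 * c) ≤ |(c:ℝ) * π - p| := by
  have hc1 : (1:ℝ) ≤ c := by exact_mod_cast hc
  have hpi1 : 3.14 < π := Real.pi_gt_d2
  have hpi2 : π < 3.15 := Real.pi_lt_d2
  have hpow1 : (1:ℝ) ≤ ((c:ℝ) + 1) ^ (240 * c) := one_le_pow₀ (by linarith)
  have hinv : 1 / ((c:ℝ) + 1) ^ (240 * c) ≤ 1 / 2 := by
    apply one_div_le_one_div_of_le (by norm_num)
    calc (2:ℝ) = 2 ^ 1 := by norm_num
      _ ≤ ((c:ℝ) + 1) ^ 1 := by gcongr; linarith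
      _ ≤ ((c:ℝ) + 1) ^ (240 * c) := pow_le_pow_right₀ (by linarith) (by omega)
  by_cases hfar : 1 / 2 ≤ |(c:ℝ) * π - p|
  · exact hinv.trans hfar
  push Not at hfar
  have hfar' := abs_lt.mp hfar
  have hp0 : p ≠ 0 := by
    rintro rfl
    push_cast at hfar'
    nlinarith [hfar'.2]
  have hc0 : (0:ℝ) < c := by linarith
  set r : ℝ := (p:ℝ) / c with hr
  have hrc : r * c = p := by rw [hr]; field_simp
  have hrdiff : |π - r| * c = |(c:ℝ) * π - p| := by
    rw [← abs_of_pos hc0, ← abs_mul, abs_of_pos hc0, sub_mul, hrc]; ring_nf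
  have hr4 : |r| ≤ 4 := by
    have h1 : |π - r| ≤ 1 / 2 := by
      have := abs_nonneg (π - r)
      nlinarith
    have h2 : |r| ≤ |π| + |π - r| := by
      have : r = π - (π - r) := by ring
      calc |r| = |π - (π - r)| := by rw [← this]
        _ ≤ |π| + |π - r| := abs_sub _ _
    rw [abs_of_pos Real.pi_pos] at h2
    linarith
  have hs : |r ^ 2| ≤ 16 := by
    rw [abs_pow]
    have := abs_nonneg r
    nlinarith
  have ht : |π ^ 2| ≤ 16 := by
    rw [abs_of_pos (by positivity)]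
    nlinarith [Real.pi_pos]
  -- smallness of c^m |K_m| for m ≥ 20c
  have hsmall : ∀ m : ℕ, 20 * c ≤ m → (c:ℝ) ^ m * |KI m| ≤ 1 / 4 := by
    intro m hm
    have h1 := KI_abs_le m
    have h2 : (c:ℝ) ^ m * |KI m| ≤ 4 * ((5 / 2 * c) ^ m / (m.factorial : ℝ)) := by
      calc (c:ℝ) ^ m * |KI m| ≤ (c:ℝ) ^ m * (4 * ((5 / 2) ^ m / (m.factorial : ℝ))) := by gcongr
        _ = 4 * ((5 / 2 * c) ^ m / (m.factorial : ℝ)) := by rw [mul_pow]; ring
    have h3 : (20 * (c:ℝ)) ^ m / (m.factorial : ℝ) ≤ Real.exp (20 * c) :=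
      Real.pow_div_factorial_le_exp _ (by positivity) m
    have h4 : (5 / 2 * (c:ℝ)) ^ m / (m.factorial : ℝ) = (1 / 8) ^ m * ((20 * (c:ℝ)) ^ m / (m.factorial : ℝ)) := by
      rw [← mul_div_assoc, ← mul_pow]; ring_nf
    have h5 : Real.exp (20 * c) ≤ 4 ^ (20 * c) := by
      have : Real.exp (20 * c) = Real.exp 1 ^ (20 * c) := by
        rw [← Real.exp_nat_mul]; push_cast; ring_nf
      rw [this]
      have h6 := Real.exp_one_lt_d9
      gcongr
      linarith
    have h6 : (1 / 8 : ℝ) ^ m ≤ (1 / 8) ^ (20 * c) :=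
      pow_le_pow_of_le_one (by norm_num) (by norm_num) hm
    have h7 : (1 / 8 : ℝ) ^ (20 * c) * 4 ^ (20 * c) = (1 / 2) ^ (20 * c) := by
      rw [← mul_pow]; norm_num
    have h8 : (1 / 2 : ℝ) ^ (20 * c) ≤ (1 / 2) ^ 4 :=
      pow_le_pow_of_le_one (by norm_num) (by norm_num) (by omega)
    calc (c:ℝ) ^ m * |KI m| ≤ 4 * ((1 / 8) ^ m * ((20 * (c:ℝ)) ^ m / (m.factorial : ℝ))) := by
          rw [← h4]; exact h2
      _ ≤ 4 * ((1 / 8) ^ (20 * c) * 4 ^ (20 * c)) := by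
          gcongr
          exact h3.trans h5
      _ = 4 * (1 / 2) ^ (20 * c) := by rw [h7]
      _ ≤ 4 * (1 / 2) ^ 4 := by gcongr
      _ = 1 / 4 := by norm_num
  obtain ⟨m, hm1, hm2, hGne⟩ : ∃ m : ℕ, 20 * c ≤ m ∧ m ≤ 21 * c ∧ Gp p c m ≠ 0 := by
    rcases Gp_ne p c hp0 (20 * c) with h | h
    · exact ⟨20 * c, le_rfl, by omega, h⟩
    · exact ⟨20 * c + 1, by omega, by omega, h⟩
  have hcz : (c:ℤ) ≠ 0 := by exact_mod_cast (by omega : c ≠ 0)
  have hG1 : (1:ℝ) ≤ |(Gp p c m : ℝ)| := by exact_mod_cast Int.one_le_abs hGne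
  have hG2 := Gp_eq p c hcz m
  push_cast at hG2
  rw [← hr] at hG2
  have hG3 : |(Gp p c m : ℝ)| ≤ 1 / 4 + (c:ℝ) ^ m * (4 * (20 ^ m * (m.factorial : ℝ)) * |r ^ 2 - π ^ 2|) := by
    rw [hG2, abs_mul, abs_of_pos (by positivity : (0:ℝ) < (c:ℝ) ^ m)]
    have h1 : |Fp (r ^ 2) m| ≤ |KI m| + 4 * (20 ^ m * (m.factorial : ℝ)) * |r ^ 2 - π ^ 2| := by
      have h2 := Fp_lip (r ^ 2) (π ^ 2) hs ht m
      have h3 : Fp (r ^ 2) m = Fp (π ^ 2) m + (Fp (r ^ 2) m - Fp (π ^ 2) m) := by ring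
      calc |Fp (r ^ 2) m| = |Fp (π ^ 2) m + (Fp (r ^ 2) m - Fp (π ^ 2) m)| := by rw [← h3]
        _ ≤ |Fp (π ^ 2) m| + |Fp (r ^ 2) m - Fp (π ^ 2) m| := abs_add_le _ _
        _ ≤ _ := by rw [← Fp_pi]; linarith
    have h2 : (0:ℝ) < (c:ℝ) ^ m := by positivity
    have h3 := hsmall m hm1
    calc (c:ℝ) ^ m * |Fp (r ^ 2) m|
        ≤ (c:ℝ) ^ m * (|KI m| + 4 * (20 ^ m * (m.factorial : ℝ)) * |r ^ 2 - π ^ 2|) := by gcongr
      _ = (c:ℝ) ^ m * |KI m| + (c:ℝ) ^ m * (4 * (20 ^ m * (m.factorial : ℝ)) * |r ^ 2 - π ^ 2|) := by ring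
      _ ≤ _ := by linarith
  have hfact : |r ^ 2 - π ^ 2| ≤ 8 * |π - r| := by
    have : r ^ 2 - π ^ 2 = -((π - r) * (π + r)) := by ring
    rw [this, abs_neg, abs_mul]
    have h1 : |π + r| ≤ 8 := by
      refine (abs_add_le _ _).trans ?_
      rw [abs_of_pos Real.pi_pos]; linarith
    have := abs_nonneg (π - r)
    nlinarith
  -- lower bound for |π - r|
  have hmain : 1 ≤ 64 * ((20 * (c:ℝ)) ^ m * (m.factorial : ℝ)) * |π - r| := by
    have h1 : (c:ℝ) ^ m * (4 * (20 ^ m * (m.factorial : ℝ)) * |r ^ 2 - π ^ 2|)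
        ≤ (c:ℝ) ^ m * (4 * (20 ^ m * (m.factorial : ℝ)) * (8 * |π - r|)) := by gcongr
    have h2 : (c:ℝ) ^ m * (4 * (20 ^ m * (m.factorial : ℝ)) * (8 * |π - r|))
        = 32 * ((20 * (c:ℝ)) ^ m * (m.factorial : ℝ)) * |π - r| := by rw [mul_pow]; ring
    have h3 : 3 / 4 ≤ 32 * ((20 * (c:ℝ)) ^ m * (m.factorial : ℝ)) * |π - r| := by
      rw [← h2]; linarith
    linarith
  -- bound of the factor
  have hfac : (m.factorial : ℝ) ≤ (21 * (c:ℝ)) ^ m := by
    calc (m.factorial : ℝ) ≤ (m:ℝ) ^ m := by exact_mod_cast Nat.factorial_le_pow m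
      _ ≤ (21 * (c:ℝ)) ^ m := by
          gcongr
          exact_mod_cast hm2
  have hbig : 64 * ((20 * (c:ℝ)) ^ m * (m.factorial : ℝ)) ≤ ((c:ℝ) + 1) ^ (240 * c) := by
    have h1 : (20 * (c:ℝ)) ^ m * (m.factorial : ℝ) ≤ (420 * (c:ℝ) * c) ^ m := by
      calc (20 * (c:ℝ)) ^ m * (m.factorial : ℝ) ≤ (20 * (c:ℝ)) ^ m * (21 * (c:ℝ)) ^ m := by gcongr
        _ = (420 * (c:ℝ) * c) ^ m := by rw [← mul_pow]; ring_nf
    have h2 : 420 * (c:ℝ) * c ≤ ((c:ℝ) + 1) ^ 11 := by
      have e1 : (2:ℝ) ^ 9 ≤ ((c:ℝ) + 1) ^ 9 := by gcongr; linarith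
      have e2 : (c:ℝ) * c ≤ ((c:ℝ) + 1) ^ 2 := by nlinarith
      calc 420 * (c:ℝ) * c = 420 * ((c:ℝ) * c) := by ring
        _ ≤ 2 ^ 9 * ((c:ℝ) + 1) ^ 2 := by nlinarith
        _ ≤ ((c:ℝ) + 1) ^ 9 * ((c:ℝ) + 1) ^ 2 := by gcongr
        _ = ((c:ℝ) + 1) ^ 11 := by ring
    have h3 : (420 * (c:ℝ) * c) ^ m ≤ ((c:ℝ) + 1) ^ (11 * m) := by
      rw [pow_mul]; gcongr
    have h4 : (64:ℝ) ≤ ((c:ℝ) + 1) ^ 6 := by
      calc (64:ℝ) = 2 ^ 6 := by norm_num
        _ ≤ ((c:ℝ) + 1) ^ 6 := by gcongr; linarith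
    calc 64 * ((20 * (c:ℝ)) ^ m * (m.factorial : ℝ)) ≤ ((c:ℝ) + 1) ^ 6 * ((c:ℝ) + 1) ^ (11 * m) :=
          mul_le_mul h4 (h1.trans h3) (by positivity) (by positivity)
      _ = ((c:ℝ) + 1) ^ (6 + 11 * m) := by rw [← pow_add]
      _ ≤ ((c:ℝ) + 1) ^ (240 * c) := by
          apply pow_le_pow_right₀ (by linarith)
          omega
  have hd0 := abs_nonneg (π - r)
  have h1 : 1 ≤ ((c:ℝ) + 1) ^ (240 * c) * |π - r| :=
    hmain.trans (mul_le_mul_of_nonneg_right hbig hd0)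
  have h2 : |π - r| ≤ |(c:ℝ) * π - p| := by rw [← hrdiff]; nlinarith
  rw [div_le_iff₀ (by positivity)]
  have h3 : ((c:ℝ) + 1) ^ (240 * c) * |π - r| ≤ ((c:ℝ) + 1) ^ (240 * c) * |(c:ℝ) * π - p| :=
    mul_le_mul_of_nonneg_left h2 (by positivity)
  linarith

end H3EP
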