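import Pool.Agent.H3.EP.UniSim
import Pool.Agent.H3.EP.Gap

namespace H3EP

open Filter Topology

/-- value of the integer linear form `v` at `(1, e, y)` -/
noncomputable def Lf (y : ℝ) (v : Fin 3 → ℤ) : ℝ := v 0 + v 1 * Real.exp 1 + v 2 * y

/-- height of an integer vector -/
def hgt (v : Fin 3 → ℤ) : ℕ := max (v 0).natAbs (max (v 1).natAbs (v 2).natAbs)

lemma hgt_le_iff (v : Fin 3 → ℤ) (H : ℝ) :
    ((hgt v : ℕ) : ℝ) ≤ H ↔ ∀ i, |(v i : ℝ)| ≤ H := by
  unfold hgt
  have e : ∀ z : ℤ, ((z.natAbs : ℕ) : ℝ) = |(z:ℝ)| := fun z => by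
    rw [Nat.cast_natAbs, Int.cast_abs]
  rw [Fin.forall_fin_succ, Fin.forall_fin_two]
  simp only [Fin.succ_zero_eq_one, Fin.succ_one_eq_two]
  rw [Nat.cast_max, Nat.cast_max, e, e, e]
  simp only [max_le_iff]

lemma abs_le_hgt (v : Fin 3 → ℤ) (i : Fin 3) : |(v i : ℝ)| ≤ hgt v :=
  (hgt_le_iff v _).mp le_rfl i

lemma finite_hgt (N : ℕ) : {v : Fin 3 → ℤ | hgt v ≤ N}.Finite := by
  apply (Set.finite_Icc (fun _ : Fin 3 => -(N:ℤ)) (fun _ => (N:ℤ))).subset
  intro v hv
  have h1 : ((hgt v : ℕ) : ℝ) ≤ N := by exact_mod_cast hv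
  rw [hgt_le_iff] at h1
  constructor
  · intro i
    have := (abs_le.mp (h1 i)).1
    exact_mod_cast this
  · intro i
    have := (abs_le.mp (h1 i)).2
    exact_mod_cast this

lemma exists_hgt_eq (v : Fin 3 → ℤ) : ∃ i, |(v i : ℝ)| = hgt v := by
  have e : ∀ z : ℤ, ((z.natAbs : ℕ) : ℝ) = |(z:ℝ)| := fun z => by
    rw [Nat.cast_natAbs, Int.cast_abs]
  unfold hgt
  rcases max_choice (v 0).natAbs (max (v 1).natAbs (v 2).natAbs) with h | h
  · exact ⟨0, by rw [h, e]⟩
  · rcases max_choice (v 1).natAbs (v 2).natAbs with h' | h'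
    · exact ⟨1, by rw [h, h', e]⟩
    · exact ⟨2, by rw [h, h', e]⟩

lemma det3_lf (y : ℝ) (a b c : Fin 3 → ℤ) :
    ((det3 a b c : ℤ) : ℝ) = Lf y a * (b 1 * c 2 - b 2 * c 1 : ℤ)
      - Lf y b * (a 1 * c 2 - a 2 * c 1 : ℤ) + Lf y c * (a 1 * b 2 - a 2 * b 1 : ℤ) := by
  unfold det3 cr0 cr1 cr2 Lf
  push_cast
  ring

/-- Structure of the sequence of minimal linear forms when there is no relation. -/
theorem lin_seq (y w : ℝ) (hw1 : 1 < w)
    (hno : ∀ a b c : ℤ, (a:ℝ) + b * Real.exp 1 + c * y = 0 → a = 0 ∧ b = 0 ∧ c = 0)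
    (hsm : ∃ H0 : ℝ, ∀ H : ℝ, H0 ≤ H → ∃ v : Fin 3 → ℤ, v ≠ 0 ∧ (∀ i, |(v i : ℝ)| ≤ H) ∧
      |Lf y v| ≤ H ^ (-w)) :
    ∃ x : ℕ → Fin 3 → ℤ, (∀ n, 1 ≤ hgt (x n)) ∧ (∀ n, hgt (x n) < hgt (x (n + 1))) ∧
      (∀ n, |Lf y (x (n + 1))| < |Lf y (x n)|) ∧
      (∀ n u, u ≠ 0 → hgt u < hgt (x (n + 1)) → |Lf y (x n)| ≤ |Lf y u|) ∧
      (∀ n, cr0 (x n) (x (n + 1)) ≠ 0 ∨ cr1 (x n) (x (n + 1)) ≠ 0 ∨
        cr2 (x n) (x (n + 1)) ≠ 0) ∧
      (∃ H1 : ℝ, ∀ n, H1 ≤ hgt (x (n + 1)) - (1:ℝ) →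
        |Lf y (x n)| ≤ 2 ^ w * (hgt (x (n + 1)) : ℝ) ^ (-w)) ∧
      (∀ N, ∃ n ≥ N, 1 ≤ 6 * |Lf y (x n)| * hgt (x (n + 1)) * hgt (x (n + 2))) := by
  have hLpos : ∀ v : Fin 3 → ℤ, v ≠ 0 → 0 < |Lf y v| := by
    intro v hv
    rw [abs_pos]
    intro h
    apply hv
    obtain ⟨h0, h1, h2⟩ := hno _ _ _ h
    ext i
    fin_cases i
    · exact h0
    · exact h1
    · exact h2
  have hhpos : ∀ v : Fin 3 → ℤ, v ≠ 0 → 1 ≤ hgt v := by
    intro v hv
    by_contra hcon
    apply hv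
    have h0 : hgt v = 0 := by omega
    ext i
    have h1 := abs_le_hgt v i
    rw [h0] at h1
    have h2 : |(v i : ℝ)| ≤ 0 := by simpa using h1
    have h3 := abs_nonpos_iff.mp h2
    exact_mod_cast h3
  obtain ⟨H0, hH0⟩ := hsm
  obtain ⟨X, hX1, hX2, hX3⟩ := exists_minseq (V := {v : Fin 3 → ℤ // v ≠ 0}) (fun v => hgt v.1)
    (fun v => |Lf y v.1|)
    (by
      intro N
      exact (finite_hgt N).preimage (Subtype.val_injective.injOn))
    (hV := ⟨⟨fun _ => 1, by
      intro h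
      have := congrFun h 0
      simp at this⟩⟩)
    (by
      intro v
      have ht : Tendsto (fun H : ℝ => H ^ (-w)) atTop (𝓝 0) := tendsto_rpow_neg_atTop (by linarith)
      obtain ⟨H, h1, h2⟩ := ((ht.eventually_lt_const (hLpos v.1 v.2)).and
        (eventually_ge_atTop H0)).exists
      obtain ⟨u, hu1, hu2, hu3⟩ := hH0 H h2
      exact ⟨⟨u, hu1⟩, lt_of_le_of_lt hu3 h1⟩)
  -- consecutive independence
  have hind : ∀ n, cr0 (X n).1 (X (n + 1)).1 ≠ 0 ∨ cr1 (X n).1 (X (n + 1)).1 ≠ 0 ∨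
      cr2 (X n).1 (X (n + 1)).1 ≠ 0 := by
    intro n
    by_contra hcon
    push Not at hcon
    obtain ⟨h0, h1, h2⟩ := hcon
    set a := (X n).1 with ha
    set b := (X (n + 1)).1 with hb
    unfold cr0 at h0
    unfold cr1 at h1
    unfold cr2 at h2
    have h0' : (a 1 : ℝ) * b 2 - a 2 * b 1 = 0 := by exact_mod_cast h0
    have h1' : (a 2 : ℝ) * b 0 - a 0 * b 2 = 0 := by exact_mod_cast h1
    have h2' : (a 0 : ℝ) * b 1 - a 1 * b 0 = 0 := by exact_mod_cast h2
    have hpar : ∀ i j : Fin 3, (a i : ℝ) * b j = a j * b i := by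
      intro i j
      fin_cases i <;> fin_cases j <;> simp <;> linarith
    obtain ⟨j, hj⟩ := exists_hgt_eq a
    obtain ⟨k, hk⟩ := exists_hgt_eq b
    have hL : (b j : ℝ) * Lf y a = a j * Lf y b := by
      unfold Lf
      have e0 := hpar 0 j
      have e1 := hpar 1 j
      have e2 := hpar 2 j
      linear_combination e0 + Real.exp 1 * e1 + y * e2
    have hbj : (hgt b : ℝ) ≤ |(b j : ℝ)| := by
      have e1 := congrArg abs (hpar j k)
      rw [abs_mul, abs_mul, hj, hk] at e1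
      have e2 := abs_le_hgt a k
      have e3 := abs_nonneg (b j : ℝ)
      have e4 : (0:ℝ) < hgt a := by
        have := hhpos a (X n).2
        exact_mod_cast this
      have e5 : (hgt a : ℝ) * hgt b ≤ hgt a * |(b j : ℝ)| := by
        rw [e1]; exact mul_le_mul_of_nonneg_right e2 e3
      exact le_of_mul_le_mul_left e5 e4
    have e1 := congrArg abs hL
    rw [abs_mul, abs_mul, hj] at e1
    have e2 : |Lf y b| < |Lf y a| := hX2 n
    have e3 : (hgt a : ℝ) < hgt b := by exact_mod_cast hX1 n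
    have e4 : 0 < |Lf y b| := hLpos b (X (n + 1)).2
    have e5 : (hgt b : ℝ) * |Lf y a| ≤ |(b j : ℝ)| * |Lf y a| :=
      mul_le_mul_of_nonneg_right hbj (by linarith)
    have e6 : (0:ℝ) ≤ hgt a := by positivity
    nlinarith
  have hnn : ∀ n : ℕ, (n:ℝ) ≤ hgt (X n).1 := by
    intro n
    have := minseq_ge (fun v : {v : Fin 3 → ℤ // v ≠ 0} => hgt v.1) X hX1 n
    exact_mod_cast this
  have hhalf : ∀ n, max H0 1 ≤ hgt (X (n + 1)).1 - (1:ℝ) →
      |Lf y (X n).1| ≤ 2 ^ w * (hgt (X (n + 1)).1 : ℝ) ^ (-w) := by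
    intro n hn
    obtain ⟨v, hv1, hv2, hv3⟩ := hH0 (hgt (X (n + 1)).1 - (1:ℝ)) ((le_max_left _ _).trans hn)
    have h1 := (le_max_right _ _).trans hn
    have h2 : hgt v < hgt (X (n + 1)).1 := by
      have : ((hgt v : ℕ) : ℝ) ≤ hgt (X (n + 1)).1 - (1:ℝ) := (hgt_le_iff v _).mpr hv2
      have h3 : ((hgt v : ℕ) : ℝ) < hgt (X (n + 1)).1 := by linarith
      exact_mod_cast h3
    refine (hX3 n ⟨v, hv1⟩ h2).trans (hv3.trans ?_)
    set B : ℝ := (hgt (X (n + 1)).1 : ℝ) with hB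
    have e1 : (B - 1) ^ (-w) ≤ (B / 2) ^ (-w) := by
      apply Real.rpow_le_rpow_of_nonpos (by linarith) (by linarith) (by linarith)
    refine e1.trans ?_
    rw [Real.div_rpow (by linarith) (by norm_num), div_eq_mul_inv, ← Real.rpow_neg (by norm_num),
      neg_neg, mul_comm]
  refine ⟨fun n => (X n).1, fun n => hhpos _ (X n).2, hX1, hX2, ?_, hind,
    ⟨max H0 1, hhalf⟩, ?_⟩
  · intro n u hu hlt
    exact hX3 n ⟨u, hu⟩ hlt
  intro N
  by_contra hcon
  push Not at hcon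
  have hdet : ∀ n ≥ N, det3 (X n).1 (X (n + 1)).1 (X (n + 2)).1 = 0 := by
    intro n hn
    by_contra hne
    have h1 : (1:ℝ) ≤ |((det3 (X n).1 (X (n + 1)).1 (X (n + 2)).1 : ℤ) : ℝ)| := by
      have := Int.one_le_abs hne
      exact_mod_cast this
    have h2 := hcon n hn
    set a := (X n).1 with ha
    set b := (X (n + 1)).1 with hb
    set c := (X (n + 2)).1 with hc
    rw [det3_lf y] at h1
    have mab : |((a 1 * b 2 - a 2 * b 1 : ℤ) : ℝ)| ≤ 2 * (hgt a * hgt b) := by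
      push_cast
      refine (abs_sub _ _).trans ?_
      rw [abs_mul, abs_mul]
      have := mul_le_mul (abs_le_hgt a 1) (abs_le_hgt b 2) (abs_nonneg _) (Nat.cast_nonneg _)
      have := mul_le_mul (abs_le_hgt a 2) (abs_le_hgt b 1) (abs_nonneg _) (Nat.cast_nonneg _)
      linarith
    have mac : |((a 1 * c 2 - a 2 * c 1 : ℤ) : ℝ)| ≤ 2 * (hgt a * hgt c) := by
      push_cast
      refine (abs_sub _ _).trans ?_
      rw [abs_mul, abs_mul]
      have := mul_le_mul (abs_le_hgt a 1) (abs_le_hgt c 2) (abs_nonneg _) (Nat.cast_nonneg _)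
      have := mul_le_mul (abs_le_hgt a 2) (abs_le_hgt c 1) (abs_nonneg _) (Nat.cast_nonneg _)
      linarith
    have mbc : |((b 1 * c 2 - b 2 * c 1 : ℤ) : ℝ)| ≤ 2 * (hgt b * hgt c) := by
      push_cast
      refine (abs_sub _ _).trans ?_
      rw [abs_mul, abs_mul]
      have := mul_le_mul (abs_le_hgt b 1) (abs_le_hgt c 2) (abs_nonneg _) (Nat.cast_nonneg _)
      have := mul_le_mul (abs_le_hgt b 2) (abs_le_hgt c 1) (abs_nonneg _) (Nat.cast_nonneg _)
      linarith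
    have hab : (hgt a : ℝ) ≤ hgt b := by exact_mod_cast (hX1 n).le
    have hbc : (hgt b : ℝ) ≤ hgt c := by exact_mod_cast (hX1 (n + 1)).le
    have ha0 : (0:ℝ) ≤ hgt a := by positivity
    have lb : |Lf y b| ≤ |Lf y a| := (hX2 n).le
    have lc : |Lf y c| ≤ |Lf y a| := (hX2 (n + 1)).le.trans lb
    have l0 : 0 ≤ |Lf y a| := abs_nonneg _
    have t1 : |Lf y a * ((b 1 * c 2 - b 2 * c 1 : ℤ) : ℝ)| ≤ |Lf y a| * (2 * (hgt b * hgt c)) := by
      rw [abs_mul]; exact mul_le_mul_of_nonneg_left mbc l0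
    have t2 : |Lf y b * ((a 1 * c 2 - a 2 * c 1 : ℤ) : ℝ)| ≤ |Lf y a| * (2 * (hgt b * hgt c)) := by
      rw [abs_mul]
      apply mul_le_mul lb _ (abs_nonneg _) l0
      refine mac.trans ?_
      have : (hgt a : ℝ) * hgt c ≤ hgt b * hgt c := mul_le_mul_of_nonneg_right hab (by positivity)
      linarith
    have t3 : |Lf y c * ((a 1 * b 2 - a 2 * b 1 : ℤ) : ℝ)| ≤ |Lf y a| * (2 * (hgt b * hgt c)) := by
      rw [abs_mul]
      apply mul_le_mul lc _ (abs_nonneg _) l0
      refine mab.trans ?_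
      have : (hgt a : ℝ) * hgt b ≤ hgt b * hgt c := by
        have e1 : (hgt a : ℝ) * hgt b ≤ hgt b * hgt b := mul_le_mul_of_nonneg_right hab (by positivity)
        have e2 : (hgt b : ℝ) * hgt b ≤ hgt b * hgt c := mul_le_mul_of_nonneg_left hbc (by positivity)
        linarith
      linarith
    have t4 : |Lf y a * ((b 1 * c 2 - b 2 * c 1 : ℤ) : ℝ) - Lf y b * ((a 1 * c 2 - a 2 * c 1 : ℤ) : ℝ)
        + Lf y c * ((a 1 * b 2 - a 2 * b 1 : ℤ) : ℝ)| ≤ 6 * |Lf y a| * hgt b * hgt c := by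
      refine (abs_add_le _ _).trans ?_
      have := abs_sub (Lf y a * ((b 1 * c 2 - b 2 * c 1 : ℤ) : ℝ)) (Lf y b * ((a 1 * c 2 - a 2 * c 1 : ℤ) : ℝ))
      linarith
    linarith
  obtain ⟨w', hw', hpl⟩ := planar (fun n => (X n).1) N (fun n _ => hind n) hdet
  -- the vector w' × (1, e, y) is not zero
  set c0 : ℝ := w' 1 * y - w' 2 * Real.exp 1 with hc0
  set c1 : ℝ := w' 2 - w' 0 * y with hc1
  set c2 : ℝ := w' 0 * Real.exp 1 - w' 1 with hc2
  have hcne : 0 < max |c1| |c2| := by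
    by_contra hle
    push Not at hle
    have h1 : |c1| ≤ 0 := (le_max_left _ _).trans hle
    have h2 : |c2| ≤ 0 := (le_max_right _ _).trans hle
    have h1' := abs_nonpos_iff.mp h1
    have h2' := abs_nonpos_iff.mp h2
    have hw0 : w' 0 = 0 := exp_ne_rat (w' 0) (w' 1) (by rw [hc2] at h2'; exact h2')
    have hw1' : w' 1 = 0 := by
      rw [hc2, hw0] at h2'
      have : (w' 1 : ℝ) = 0 := by push_cast at h2'; linarith
      exact_mod_cast this
    have hw2' : w' 2 = 0 := by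
      rw [hc1, hw0] at h1'
      have : (w' 2 : ℝ) = 0 := by push_cast at h1'; linarith
      exact_mod_cast this
    rcases hw' with h | h | h
    · exact h hw0
    · exact h hw1'
    · exact h hw2'
  -- bound: for n ≥ N, max|c| ≤ 2 * hgt w' * hgt (x (n+1)) * |L (x n)|
  have hbd : ∀ n ≥ N, max |c1| |c2| ≤ 2 * hgt w' * hgt (X (n + 1)).1 * |Lf y (X n).1| := by
    intro n hn
    have p1 := hpl n hn
    have p2 := hpl (n + 1) (by omega)
    have hi := hind n
    set a := (X n).1 with ha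
    set b := (X (n + 1)).1 with hb
    have lab : |Lf y b| ≤ |Lf y a| := (hX2 n).le
    have hab : (hgt a : ℝ) ≤ hgt b := by exact_mod_cast (hX1 n).le
    have l0 : 0 ≤ |Lf y a| := abs_nonneg _
    have q1 : (w' 0 : ℝ) * a 0 + w' 1 * a 1 + w' 2 * a 2 = 0 := by exact_mod_cast p1
    have q2 : (w' 0 : ℝ) * b 0 + w' 1 * b 1 + w' 2 * b 2 = 0 := by exact_mod_cast p2
    -- X × ξ components
    have comp : ∀ i : Fin 3, |(b i : ℝ) * Lf y a - a i * Lf y b| ≤ 2 * hgt b * |Lf y a| := by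
      intro i
      refine (abs_sub _ _).trans ?_
      rw [abs_mul, abs_mul]
      have e1 : |(b i : ℝ)| * |Lf y a| ≤ hgt b * |Lf y a| :=
        mul_le_mul_of_nonneg_right (abs_le_hgt b i) l0
      have e2 : |(a i : ℝ)| * |Lf y b| ≤ hgt b * |Lf y a| :=
        mul_le_mul ((abs_le_hgt a i).trans hab) lab (abs_nonneg _) (by positivity)
      linarith
    -- choose the nonzero component of the cross product
    have fin : ∀ (cj wj : ℤ), cj ≠ 0 → |(wj:ℝ)| ≤ hgt w' →
        (cj : ℝ) * c1 = wj * ((b 1 : ℝ) * Lf y a - a 1 * Lf y b) →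
        (cj : ℝ) * c2 = wj * ((b 2 : ℝ) * Lf y a - a 2 * Lf y b) →
        max |c1| |c2| ≤ 2 * hgt w' * hgt b * |Lf y a| := by
      intro cj wj hcj hwj e1 e2
      have hcj' : (1:ℝ) ≤ |(cj:ℝ)| := by exact_mod_cast Int.one_le_abs hcj
      apply max_le
      · have f1 := congrArg abs e1
        rw [abs_mul, abs_mul] at f1
        have f2 : |(wj:ℝ)| * |(b 1 : ℝ) * Lf y a - a 1 * Lf y b| ≤ hgt w' * (2 * hgt b * |Lf y a|) :=
          mul_le_mul hwj (comp 1) (abs_nonneg _) (by positivity)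
        have f3 := abs_nonneg c1
        nlinarith
      · have f1 := congrArg abs e2
        rw [abs_mul, abs_mul] at f1
        have f2 : |(wj:ℝ)| * |(b 2 : ℝ) * Lf y a - a 2 * Lf y b| ≤ hgt w' * (2 * hgt b * |Lf y a|) :=
          mul_le_mul hwj (comp 2) (abs_nonneg _) (by positivity)
        have f3 := abs_nonneg c2
        nlinarith
    rcases hi with h | h | h
    · apply fin _ (w' 0) h (abs_le_hgt w' 0)
      · rw [hc1]; unfold cr0 Lf; push_cast
        linear_combination (a 1 : ℝ) * q2 - (b 1 : ℝ) * q1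
      · rw [hc2]; unfold cr0 Lf; push_cast
        linear_combination (a 2 : ℝ) * q2 - (b 2 : ℝ) * q1
    · apply fin _ (w' 1) h (abs_le_hgt w' 1)
      · rw [hc1]; unfold cr1 Lf; push_cast
        linear_combination (-(a 0 : ℝ) - y * a 2) * q2 + ((b 0 : ℝ) + y * b 2) * q1
      · rw [hc2]; unfold cr1 Lf; push_cast
        linear_combination (Real.exp 1 * a 2) * q2 - (Real.exp 1 * b 2) * q1
    · apply fin _ (w' 2) h (abs_le_hgt w' 2)
      · rw [hc1]; unfold cr2 Lf; push_cast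
        linear_combination (y * a 1) * q2 - (y * b 1) * q1
      · rw [hc2]; unfold cr2 Lf; push_cast
        linear_combination (-(Real.exp 1 * a 1) - a 0) * q2 + (Real.exp 1 * b 1 + b 0) * q1
  -- the right-hand side tends to zero
  have ht : Tendsto (fun H : ℝ => H ^ (-(w - 1))) atTop (𝓝 0) :=
    tendsto_rpow_neg_atTop (by linarith)
  have hcst : 0 < max |c1| |c2| / (2 * (hgt w' + 1) * 2 ^ w) := by positivity
  obtain ⟨T, hT⟩ := eventually_atTop.mp (ht.eventually_lt_const hcst)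
  obtain ⟨k, hk⟩ := exists_nat_gt (max T (max H0 1 + 1))
  have hk1 : T ≤ hgt (X (max N k + 1)).1 := by
    have h1 := hnn (max N k + 1)
    have h2 : (k:ℝ) ≤ ((max N k + 1 : ℕ) : ℝ) := by
      exact_mod_cast (le_max_right N k).trans (Nat.le_succ _)
    have h3 := (le_max_left T (max H0 1 + 1)).trans hk.le
    linarith
  have hk2 : max H0 1 ≤ hgt (X (max N k + 1)).1 - (1:ℝ) := by
    have h1 := hnn (max N k + 1)
    have h2 : (k:ℝ) ≤ ((max N k + 1 : ℕ) : ℝ) := by
      exact_mod_cast (le_max_right N k).trans (Nat.le_succ _)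
    have h3 := (le_max_right T (max H0 1 + 1)).trans hk.le
    linarith
  have b1 := hbd (max N k) (le_max_left _ _)
  have b2 := hhalf (max N k) hk2
  have b3 := hT _ hk1
  set B : ℝ := (hgt (X (max N k + 1)).1 : ℝ) with hB
  have hB0 : 0 < B := by
    have := le_max_right H0 1
    linarith
  have e1 : B * B ^ (-w) = B ^ (-(w - 1)) := by
    rw [show -(w - 1) = 1 + (-w) by ring, Real.rpow_add hB0, Real.rpow_one]
  rw [lt_div_iff₀ (by positivity)] at b3
  have hw'0 : (0:ℝ) ≤ hgt w' := by positivity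
  have e2 : 2 * hgt w' * B * |Lf y (X (max N k)).1| ≤ 2 * hgt w' * B * (2 ^ w * B ^ (-w)) :=
    mul_le_mul_of_nonneg_left b2 (by positivity)
  have e3 : 2 * hgt w' * B * (2 ^ w * B ^ (-w)) = 2 * hgt w' * 2 ^ w * B ^ (-(w - 1)) := by
    rw [← e1]; ring
  have e4 : 0 < B ^ (-(w - 1)) := by positivity
  have e5 : (0:ℝ) < 2 ^ w := by positivity
  nlinarith [mul_pos e4 e5]

end H3EP

namespace H3EP

open Filter Topology

/-- bound for the uniform exponent of linear forms -/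
theorem lin_main (y w : ℝ) (hw : (3 + Real.sqrt 5) / 2 < w)
    (hsm : ∃ H0 : ℝ, ∀ H : ℝ, H0 ≤ H → ∃ v : Fin 3 → ℤ, v ≠ 0 ∧ (∀ i, |(v i : ℝ)| ≤ H) ∧
      |Lf y v| ≤ H ^ (-w)) :
    ∃ a b c : ℤ, (a:ℝ) + b * Real.exp 1 + c * y = 0 ∧ ¬ (a = 0 ∧ b = 0 ∧ c = 0) := by
  by_contra hcon
  push Not at hcon
  have hs5' : 2 < Real.sqrt 5 := by
    rw [Real.lt_sqrt (by norm_num)]; norm_num
  have hsq : Real.sqrt 5 ^ 2 = 5 := Real.sq_sqrt (by norm_num)
  have hw2 : 2.5 < w := by linarith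
  obtain ⟨x, hx1, hx2, hx3, hx4, hind, ⟨H1, hhalf⟩, hdet⟩ := lin_seq y w (by linarith)
    (fun a b c h => hcon a b c h) hsm
  have hκ : 0 < w - 2 - 1 / (w - 1) := by
    have h1 : 0 < w - 1 := by linarith
    have h2 : 1 / (w - 1) < w - 2 := by
      rw [div_lt_iff₀ h1]
      nlinarith
    linarith
  set C : ℝ := 2 ^ w with hC
  have hC1 : 1 ≤ C := by
    rw [hC]
    calc (1:ℝ) = 2 ^ (0:ℝ) := by simp
      _ ≤ 2 ^ w := Real.rpow_le_rpow_of_exponent_le (by norm_num) (by linarith)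
  obtain ⟨A0, hA0⟩ := log_lt_rpow (19200 * C * C) (w - 2 - 1 / (w - 1)) (by positivity) hκ
  have hnn : ∀ n : ℕ, n ≤ hgt (x n) := by
    intro n
    induction n with
    | zero => exact Nat.zero_le _
    | succ n ih => have := hx2 n; omega
  obtain ⟨N, hN⟩ := exists_nat_gt (max (max A0 3) (H1 + 1))
  obtain ⟨n, hn, hd⟩ := hdet N
  set A : ℝ := (hgt (x (n + 1)) : ℝ) with hA
  set B : ℝ := (hgt (x (n + 2)) : ℝ) with hB
  have hNA : (N:ℝ) ≤ A := by
    rw [hA]
    exact_mod_cast (by have := hnn (n + 1); omega : N ≤ hgt (x (n + 1)))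
  have hAB : A ≤ B := by
    rw [hA, hB]
    exact_mod_cast (hx2 (n + 1)).le
  have hA3 : 3 ≤ A := by
    have := (le_max_right A0 3).trans ((le_max_left _ (H1 + 1)).trans hN.le)
    linarith
  have hBA0 : A0 ≤ B := by
    have := (le_max_left A0 3).trans ((le_max_left _ (H1 + 1)).trans hN.le)
    linarith
  have hAH : H1 ≤ A - 1 := by
    have := (le_max_right (max A0 3) (H1 + 1)).trans hN.le
    linarith
  have hA0' : 0 < A := by linarith
  have hB0' : 0 < B := by linarith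
  have hLA := hhalf n hAH
  have hLB := hhalf (n + 1) (show H1 ≤ (hgt (x (n + 2)) : ℝ) - 1 by rw [← hB]; linarith)
  rw [← hA] at hLA
  have hLB' : |Lf y (x (n + 1))| ≤ C * B ^ (-w) := hLB
  have hL0 := abs_nonneg (Lf y (x n))
  -- (I')
  have I1 : A ^ (w - 1) ≤ 6 * C * B := by
    have e1 : 1 ≤ 6 * (C * A ^ (-w)) * A * B := by
      refine hd.trans ?_
      gcongr
    have e2 : A ^ (-w) * A * A ^ (w - 1) = 1 := by
      have : A ^ (-w) * A = A ^ (-(w - 1)) := by
        rw [show -(w - 1) = (-w) + 1 by ring, Real.rpow_add hA0', Real.rpow_one]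
      rw [this, ← Real.rpow_add hA0']; simp
    have e3 : 0 < A ^ (w - 1) := by positivity
    calc A ^ (w - 1) = A ^ (w - 1) * 1 := by ring
      _ ≤ A ^ (w - 1) * (6 * (C * A ^ (-w)) * A * B) := mul_le_mul_of_nonneg_left e1 e3.le
      _ = 6 * C * B * (A ^ (-w) * A * A ^ (w - 1)) := by ring
      _ = 6 * C * B := by rw [e2, mul_one]
  have I1' : A ≤ 6 * C * B ^ (1 / (w - 1)) := by
    have hw1 : 0 < w - 1 := by linarith
    have e1 : (A ^ (w - 1)) ^ (1 / (w - 1)) ≤ (6 * C * B) ^ (1 / (w - 1)) :=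
      Real.rpow_le_rpow (by positivity) I1 (by positivity)
    rw [← Real.rpow_mul hA0'.le, mul_one_div_cancel hw1.ne', Real.rpow_one,
      Real.mul_rpow (by positivity) hB0'.le] at e1
    refine e1.trans ?_
    apply mul_le_mul_of_nonneg_right _ (by positivity)
    calc (6 * C) ^ (1 / (w - 1)) ≤ (6 * C) ^ (1:ℝ) := by
          apply Real.rpow_le_rpow_of_exponent_le (by linarith)
          rw [div_le_one hw1]; linarith
      _ = 6 * C := by simp
  -- (II')
  have I2 : B ^ (w - 2) ≤ 3200 * C * A * Real.log (B + 2) := by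
    have hi := hind (n + 1)
    have e1 := two_forms y A B hA3 hAB (x (n + 1) 0) (x (n + 1) 1) (x (n + 1) 2)
      (x (n + 2) 0) (x (n + 2) 1) (x (n + 2) 2)
      (abs_le_hgt _ 0) (abs_le_hgt _ 1) (abs_le_hgt _ 2) (abs_le_hgt _ 1) (abs_le_hgt _ 2)
      (by
        have e1' : n + 1 + 1 = n + 2 := by ring
        rw [e1'] at hi
        unfold cr0 cr1 cr2 at hi
        rcases hi with h | h | h
        · right; right
          intro h'; apply h; linarith
        · right; left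
          intro h'; apply h; linarith
        · left
          intro h'; apply h; linarith)
    have e2 : B * |Lf y (x (n + 1))| + A * |Lf y (x (n + 2))| ≤ 2 * B * (C * B ^ (-w)) := by
      have f1 : |Lf y (x (n + 2))| ≤ |Lf y (x (n + 1))| := (hx3 (n + 1)).le
      have f2 : A * |Lf y (x (n + 2))| ≤ B * |Lf y (x (n + 1))| :=
        mul_le_mul hAB f1 (abs_nonneg _) hB0'.le
      have f3 : B * |Lf y (x (n + 1))| ≤ B * (C * B ^ (-w)) :=
        mul_le_mul_of_nonneg_left hLB' hB0'.le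
      linarith
    have e3 : 1 / (800 * A * B * Real.log (A * B)) ≤ 2 * B * (C * B ^ (-w)) := by
      refine e1.trans ?_
      unfold Lf at e2
      exact e2
    have hlogpos : 0 < Real.log (A * B) := Real.log_pos (by nlinarith)
    rw [div_le_iff₀ (by positivity)] at e3
    have hlog2 : Real.log (A * B) ≤ 2 * Real.log (B + 2) := by
      have : Real.log ((B + 2) ^ 2) = 2 * Real.log (B + 2) := by
        rw [Real.log_pow]; norm_num
      rw [← this]
      exact Real.log_le_log (by positivity) (by nlinarith)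
    have e4 : B ^ (w - 2) * (B * B * B ^ (-w)) = 1 := by
      have : B * B * B ^ (-w) = B ^ (-(w - 2)) := by
        rw [show -(w - 2) = 1 + 1 + (-w) by ring, Real.rpow_add hB0', Real.rpow_add hB0',
          Real.rpow_one]
      rw [this, ← Real.rpow_add hB0']; simp
    have e5 : 0 < B ^ (w - 2) := by positivity
    calc B ^ (w - 2) = B ^ (w - 2) * 1 := by ring
      _ ≤ B ^ (w - 2) * (2 * B * (C * B ^ (-w)) * (800 * A * B * Real.log (A * B))) :=
          mul_le_mul_of_nonneg_left e3 e5.le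
      _ = 1600 * C * A * Real.log (A * B) * (B ^ (w - 2) * (B * B * B ^ (-w))) := by ring
      _ = 1600 * C * A * Real.log (A * B) := by rw [e4, mul_one]
      _ ≤ 1600 * C * A * (2 * Real.log (B + 2)) := mul_le_mul_of_nonneg_left hlog2 (by positivity)
      _ = 3200 * C * A * Real.log (B + 2) := by ring
  have I3 : B ^ (w - 2 - 1 / (w - 1)) ≤ 19200 * C * C * Real.log (B + 2) := by
    have hl : 0 ≤ Real.log (B + 2) := Real.log_nonneg (by linarith)
    have e1 : B ^ (w - 2) ≤ 3200 * C * (6 * C * B ^ (1 / (w - 1))) * Real.log (B + 2) := by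
      refine I2.trans ?_
      gcongr
    have e2 : B ^ (w - 2) = B ^ (w - 2 - 1 / (w - 1)) * B ^ (1 / (w - 1)) := by
      rw [← Real.rpow_add hB0']; ring_nf
    rw [e2] at e1
    have e3 : 0 < B ^ (1 / (w - 1)) := by positivity
    have e4 : B ^ (w - 2 - 1 / (w - 1)) * B ^ (1 / (w - 1))
        ≤ (19200 * C * C * Real.log (B + 2)) * B ^ (1 / (w - 1)) := by linarith
    exact le_of_mul_le_mul_right e4 e3
  have := hA0 B hBA0
  linarith

/-- If there is a relation, the pair `(e, y)` is approximated uniformly with exponent one. -/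
theorem sim_of_rel (y : ℝ) (a b c : ℤ) (hc : 0 < c) (h : (a:ℝ) + b * Real.exp 1 + c * y = 0) :
    ∃ K : ℝ, 0 < K ∧ ∀ Q : ℝ, 1 ≤ Q → ∃ q : ℕ, 1 ≤ q ∧ (q:ℝ) ≤ Q ∧ ms y q ≤ K / Q := by
  have hc1 : (1:ℝ) ≤ c := by exact_mod_cast hc
  have hsmall : ∀ q : ℕ, ms y q ≤ 1 := by
    intro q
    unfold ms
    have h1 := abs_sub_round ((q:ℝ) * Real.exp 1)
    have h2 := abs_sub_round ((q:ℝ) * y)
    apply max_le <;> linarith
  refine ⟨4 * c * (c + |(b:ℝ)|), by positivity, ?_⟩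
  intro Q hQ
  have hbn := abs_nonneg (b:ℝ)
  by_cases hQc : Q < 2 * c
  · refine ⟨1, le_rfl, by simpa using hQ, (hsmall 1).trans ?_⟩
    rw [le_div_iff₀ (by linarith)]
    nlinarith
  · push Not at hQc
    -- Dirichlet for e with bound floor (Q/c)
    set n : ℕ := ⌊Q / c⌋₊ with hn
    have hcpos : (0:ℝ) < c := by linarith
    have hQc2 : 2 ≤ Q / c := by rw [le_div_iff₀ hcpos]; linarith
    have hn1 : (n:ℝ) ≤ Q / c := Nat.floor_le (by linarith)
    have hn2 : Q / c < n + 1 := Nat.lt_floor_add_one _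
    have hnpos : 0 < n := by
      rw [hn, Nat.floor_pos]; linarith
    obtain ⟨j, k, hk1, hk2, hjk⟩ := Real.exists_int_int_abs_mul_sub_le (Real.exp 1) hnpos
    obtain ⟨k', rfl⟩ := Int.eq_ofNat_of_zero_le hk1.le
    obtain ⟨c', rfl⟩ := Int.eq_ofNat_of_zero_le hc.le
    push_cast at *
    have hk1' : 1 ≤ k' := by exact_mod_cast hk1
    have hc1' : 1 ≤ c' := by exact_mod_cast hc
    have hk2' : (k':ℝ) ≤ n := by exact_mod_cast hk2
    refine ⟨c' * k', Nat.one_le_iff_ne_zero.mpr (by positivity), ?_, ?_⟩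
    · push_cast
      have : (c':ℝ) * k' ≤ c' * (Q / c') := mul_le_mul_of_nonneg_left (hk2'.trans hn1) hcpos.le
      rwa [mul_div_cancel₀ _ hcpos.ne'] at this
    · have hd : |(k':ℝ) * Real.exp 1 - j| ≤ c' / Q := by
        refine hjk.trans ?_
        rw [div_le_div_iff₀ (by positivity) (by linarith)]
        rw [div_lt_iff₀ hcpos] at hn2
        linarith
      have hd0 := abs_nonneg ((k':ℝ) * Real.exp 1 - j)
      have hQ0 : 0 < Q := by linarith
      unfold ms
      apply max_le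
      · refine (round_le _ (c' * j)).trans ?_
        have e : ((c' * k' : ℕ) : ℝ) * Real.exp 1 - ((c' * j : ℤ) : ℝ) = c' * ((k':ℝ) * Real.exp 1 - j) := by
          push_cast; ring
        rw [e, abs_mul, abs_of_pos hcpos]
        calc (c':ℝ) * |(k':ℝ) * Real.exp 1 - j| ≤ c' * (c' / Q) := mul_le_mul_of_nonneg_left hd hcpos.le
          _ = (c' * c') / Q := by ring
          _ ≤ 4 * c' * (c' + |(b:ℝ)|) / Q := by
              apply div_le_div_of_nonneg_right _ hQ0.le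
              nlinarith
      · refine (round_le _ (-(a * k') - b * j)).trans ?_
        have e : ((c' * k' : ℕ) : ℝ) * y - ((-(a * k') - b * j : ℤ) : ℝ) = -(b * ((k':ℝ) * Real.exp 1 - j)) := by
          push_cast
          linear_combination (k':ℝ) * h
        rw [e, abs_neg, abs_mul]
        calc |(b:ℝ)| * |(k':ℝ) * Real.exp 1 - j| ≤ |(b:ℝ)| * (c' / Q) := mul_le_mul_of_nonneg_left hd hbn
          _ = (|(b:ℝ)| * c') / Q := by ring
          _ ≤ 4 * c' * (c' + |(b:ℝ)|) / Q := by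
              apply div_le_div_of_nonneg_right _ hQ0.le
              nlinarith

end H3EP
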