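import Pool.Agent.H3.EP.Measure
import Pool.Agent.H3.EP.MinSeq

namespace H3EP

open Filter Topology

/-- `max (‖q e‖, ‖q y‖)` -/
noncomputable def ms (y : ℝ) (q : ℕ) : ℝ :=
  max |(q:ℝ) * Real.exp 1 - round ((q:ℝ) * Real.exp 1)| |(q:ℝ) * y - round ((q:ℝ) * y)|

lemma ms_pos (y : ℝ) (q : ℕ) (hq : 1 ≤ q) : 0 < ms y q := by
  unfold ms
  apply lt_max_of_lt_left
  rw [abs_pos]
  intro h
  have := exp_ne_rat (q:ℤ) (round ((q:ℝ) * Real.exp 1)) (by push_cast; exact h)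
  omega

lemma ms_ge (y : ℝ) (q : ℕ) (hq : 1 ≤ q) :
    1 / (200 * (q:ℝ) * Real.log (q + 2)) ≤ ms y q := by
  refine le_trans ?_ (le_max_left _ _)
  have := measure_log (q:ℤ) (by omega) (round ((q:ℝ) * Real.exp 1))
  push_cast at this
  exact this

/-- the integer vector `(q, round (q e), round (q y))` -/
noncomputable def vec (y : ℝ) (q : ℕ) : Fin 3 → ℤ :=
  ![(q:ℤ), round ((q:ℝ) * Real.exp 1), round ((q:ℝ) * y)]

lemma vec0 (y : ℝ) (q : ℕ) : vec y q 0 = (q:ℤ) := by simp [vec]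
lemma vec1 (y : ℝ) (q : ℕ) : vec y q 1 = round ((q:ℝ) * Real.exp 1) := by simp [vec]
lemma vec2 (y : ℝ) (q : ℕ) : vec y q 2 = round ((q:ℝ) * y) := by simp [vec]

lemma vec1_abs (y : ℝ) (q : ℕ) : |(q:ℝ) * Real.exp 1 - vec y q 1| ≤ ms y q := by
  rw [vec1]; exact le_max_left _ _

lemma vec2_abs (y : ℝ) (q : ℕ) : |(q:ℝ) * y - vec y q 2| ≤ ms y q := by
  rw [vec2]; exact le_max_right _ _

/-- determinant estimate -/
lemma det_bound (q1 q2 q3 : ℝ) (d1 d2 d3 f1 f2 f3 m1 m2 m3 : ℝ)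
    (hq1 : 0 ≤ q1) (h12 : q1 ≤ q2) (h23 : q2 ≤ q3)
    (hm3 : 0 ≤ m3) (h32 : m3 ≤ m2) (h21 : m2 ≤ m1)
    (hd1 : |d1| ≤ m1) (hd2 : |d2| ≤ m2) (hd3 : |d3| ≤ m3)
    (hf1 : |f1| ≤ m1) (hf2 : |f2| ≤ m2) (hf3 : |f3| ≤ m3) :
    |q1 * (d2 * f3 - d3 * f2) - q2 * (d1 * f3 - d3 * f1) + q3 * (d1 * f2 - d2 * f1)|
      ≤ 6 * q3 * m1 * m2 := by
  have hm2 : 0 ≤ m2 := hm3.trans h32
  have hm1 : 0 ≤ m1 := hm2.trans h21
  have hq2 : 0 ≤ q2 := hq1.trans h12
  have hq3 : 0 ≤ q3 := hq2.trans h23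
  have pr : ∀ a b A B : ℝ, |a| ≤ A → |b| ≤ B → |a * b| ≤ A * B := by
    intro a b A B ha hb
    rw [abs_mul]
    exact mul_le_mul ha hb (abs_nonneg _) ((abs_nonneg _).trans ha)
  have t1 : |d2 * f3 - d3 * f2| ≤ 2 * (m2 * m3) := by
    refine (abs_sub _ _).trans ?_
    have := pr _ _ _ _ hd2 hf3
    have := pr _ _ _ _ hd3 hf2
    linarith [mul_comm m2 m3]
  have t2 : |d1 * f3 - d3 * f1| ≤ 2 * (m1 * m3) := by
    refine (abs_sub _ _).trans ?_
    have := pr _ _ _ _ hd1 hf3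
    have := pr _ _ _ _ hd3 hf1
    linarith [mul_comm m1 m3]
  have t3 : |d1 * f2 - d2 * f1| ≤ 2 * (m1 * m2) := by
    refine (abs_sub _ _).trans ?_
    have := pr _ _ _ _ hd1 hf2
    have := pr _ _ _ _ hd2 hf1
    linarith [mul_comm m1 m2]
  have b1 : m2 * m3 ≤ m1 * m2 := by
    have := mul_le_mul_of_nonneg_left (h32.trans h21) hm2
    linarith
  have b2 : m1 * m3 ≤ m1 * m2 := mul_le_mul_of_nonneg_left h32 hm1
  have b0 : 0 ≤ m1 * m2 := mul_nonneg hm1 hm2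
  calc |q1 * (d2 * f3 - d3 * f2) - q2 * (d1 * f3 - d3 * f1) + q3 * (d1 * f2 - d2 * f1)|
      ≤ |q1 * (d2 * f3 - d3 * f2) - q2 * (d1 * f3 - d3 * f1)| + |q3 * (d1 * f2 - d2 * f1)| :=
        abs_add_le _ _
    _ ≤ |q1 * (d2 * f3 - d3 * f2)| + |q2 * (d1 * f3 - d3 * f1)| + |q3 * (d1 * f2 - d2 * f1)| := by
        gcongr; exact abs_sub _ _
    _ = q1 * |d2 * f3 - d3 * f2| + q2 * |d1 * f3 - d3 * f1| + q3 * |d1 * f2 - d2 * f1| := by
        rw [abs_mul, abs_mul, abs_mul, abs_of_nonneg hq1, abs_of_nonneg hq2, abs_of_nonneg hq3]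
    _ ≤ q3 * (2 * (m1 * m2)) + q3 * (2 * (m1 * m2)) + q3 * (2 * (m1 * m2)) := by
        have e1 : q1 * |d2 * f3 - d3 * f2| ≤ q3 * (2 * (m1 * m2)) :=
          mul_le_mul (h12.trans h23) (by linarith) (abs_nonneg _) hq3
        have e2 : q2 * |d1 * f3 - d3 * f1| ≤ q3 * (2 * (m1 * m2)) :=
          mul_le_mul h23 (by linarith) (abs_nonneg _) hq3
        have e3 : q3 * |d1 * f2 - d2 * f1| ≤ q3 * (2 * (m1 * m2)) :=
          mul_le_mul_of_nonneg_left t3 hq3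
        linarith
    _ = 6 * q3 * m1 * m2 := by ring

/-- Structure of the sequence of best simultaneous approximations when there is no relation. -/
theorem sim_seq (y : ℝ)
    (hno : ∀ a b c : ℤ, (a:ℝ) + b * Real.exp 1 + c * y = 0 → a = 0 ∧ b = 0 ∧ c = 0)
    (hsm : ∀ ε > 0, ∃ q : ℕ, 1 ≤ q ∧ ms y q < ε) :
    ∃ x : ℕ → ℕ, (∀ n, 1 ≤ x n) ∧ (∀ n, x n < x (n + 1)) ∧
      (∀ n, ms y (x (n + 1)) < ms y (x n)) ∧
      (∀ n u, 1 ≤ u → u < x (n + 1) → ms y (x n) ≤ ms y u) ∧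
      (∀ N, ∃ n ≥ N, 1 ≤ 6 * (x (n + 2) : ℝ) * ms y (x n) * ms y (x (n + 1))) := by
  obtain ⟨X, hX1, hX2, hX3⟩ := exists_minseq (V := {q : ℕ // 1 ≤ q}) (fun v => v.1)
    (fun v => ms y v.1)
    (by
      intro N
      have : Set.Finite {n : ℕ | n ≤ N} := Set.finite_le_nat N
      exact this.preimage (Subtype.val_injective.injOn))
    (hV := ⟨⟨1, le_rfl⟩⟩)
    (by
      intro v
      obtain ⟨q, hq1, hq2⟩ := hsm _ (ms_pos y v.1 v.2)
      exact ⟨⟨q, hq1⟩, hq2⟩)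
  have hXpos : ∀ n, (0:ℝ) < (X n).1 := fun n => by
    have := (X n).2
    positivity
  have hlt : ∀ n, ((X n).1 : ℝ) < (X (n + 1)).1 := fun n => by exact_mod_cast hX1 n
  -- consecutive independence
  have hind : ∀ n, cr0 (vec y (X n).1) (vec y (X (n + 1)).1) ≠ 0 ∨
      cr1 (vec y (X n).1) (vec y (X (n + 1)).1) ≠ 0 ∨
      cr2 (vec y (X n).1) (vec y (X (n + 1)).1) ≠ 0 := by
    intro n
    by_contra hcon
    push Not at hcon
    obtain ⟨-, h1, h2⟩ := hcon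
    unfold cr1 at h1
    unfold cr2 at h2
    rw [vec0, vec0] at h1 h2
    set q := (X n).1
    set q' := (X (n + 1)).1
    have h1' : (vec y q 2 : ℝ) * q' - q * vec y q' 2 = 0 := by exact_mod_cast h1
    have h2' : (q:ℝ) * vec y q' 1 - vec y q 1 * q' = 0 := by exact_mod_cast h2
    have e1 : (q':ℝ) * ((q:ℝ) * Real.exp 1 - vec y q 1) = q * ((q':ℝ) * Real.exp 1 - vec y q' 1) := by
      linear_combination h2'
    have e2 : (q':ℝ) * ((q:ℝ) * y - vec y q 2) = q * ((q':ℝ) * y - vec y q' 2) := by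
      linear_combination (-1) * h1'
    have hq0 : (0:ℝ) < q := hXpos n
    have hq'0 : (0:ℝ) < q' := hXpos (n + 1)
    have a1 : (q':ℝ) * |(q:ℝ) * Real.exp 1 - vec y q 1| = q * |(q':ℝ) * Real.exp 1 - vec y q' 1| := by
      have := congrArg abs e1
      rwa [abs_mul, abs_mul, abs_of_pos hq0, abs_of_pos hq'0] at this
    have a2 : (q':ℝ) * |(q:ℝ) * y - vec y q 2| = q * |(q':ℝ) * y - vec y q' 2| := by
      have := congrArg abs e2
      rwa [abs_mul, abs_mul, abs_of_pos hq0, abs_of_pos hq'0] at this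
    have b1 : (q':ℝ) * ms y q ≤ q * ms y q' := by
      have hm : ms y q = max |(q:ℝ) * Real.exp 1 - vec y q 1| |(q:ℝ) * y - vec y q 2| := by
        rw [vec1, vec2]; rfl
      rw [hm, mul_max_of_nonneg _ _ hq'0.le, a1, a2]
      apply max_le
      · exact mul_le_mul_of_nonneg_left (vec1_abs y q') hq0.le
      · exact mul_le_mul_of_nonneg_left (vec2_abs y q') hq0.le
    have b2 : ms y q' < ms y q := hX2 n
    have b3 : (q:ℝ) < q' := hlt n
    have b4 : 0 < ms y q' := ms_pos y q' (X (n + 1)).2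
    nlinarith
  refine ⟨fun n => (X n).1, fun n => (X n).2, hX1, hX2, ?_, ?_⟩
  · intro n u hu hlt
    exact hX3 n ⟨u, hu⟩ hlt
  intro N
  by_contra hcon
  push Not at hcon
  -- all dets vanish from N on
  have hdet : ∀ n ≥ N, det3 (vec y (X n).1) (vec y (X (n + 1)).1) (vec y (X (n + 2)).1) = 0 := by
    intro n hn
    by_contra hne
    have h1 : (1:ℝ) ≤ |((det3 (vec y (X n).1) (vec y (X (n + 1)).1) (vec y (X (n + 2)).1) : ℤ) : ℝ)| := by
      have := Int.one_le_abs hne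
      exact_mod_cast this
    have h2 := hcon n hn
    set q1 := (X n).1
    set q2 := (X (n + 1)).1
    set q3 := (X (n + 2)).1
    have e : ((det3 (vec y q1) (vec y q2) (vec y q3) : ℤ) : ℝ) =
        (q1:ℝ) * (((q2:ℝ) * Real.exp 1 - vec y q2 1) * ((q3:ℝ) * y - vec y q3 2)
          - ((q3:ℝ) * Real.exp 1 - vec y q3 1) * ((q2:ℝ) * y - vec y q2 2))
        - (q2:ℝ) * (((q1:ℝ) * Real.exp 1 - vec y q1 1) * ((q3:ℝ) * y - vec y q3 2)
          - ((q3:ℝ) * Real.exp 1 - vec y q3 1) * ((q1:ℝ) * y - vec y q1 2))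
        + (q3:ℝ) * (((q1:ℝ) * Real.exp 1 - vec y q1 1) * ((q2:ℝ) * y - vec y q2 2)
          - ((q2:ℝ) * Real.exp 1 - vec y q2 1) * ((q1:ℝ) * y - vec y q1 2)) := by
      unfold det3 cr0 cr1 cr2
      rw [vec0, vec0, vec0]
      push_cast
      ring
    have hb := det_bound (q1:ℝ) q2 q3
      ((q1:ℝ) * Real.exp 1 - vec y q1 1) ((q2:ℝ) * Real.exp 1 - vec y q2 1)
      ((q3:ℝ) * Real.exp 1 - vec y q3 1)
      ((q1:ℝ) * y - vec y q1 2) ((q2:ℝ) * y - vec y q2 2) ((q3:ℝ) * y - vec y q3 2)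
      (ms y q1) (ms y q2) (ms y q3) (hXpos n).le (hlt n).le (hlt (n + 1)).le
      (ms_pos y q3 (X (n + 2)).2).le (hX2 (n + 1)).le (hX2 n).le
      (vec1_abs y q1) (vec1_abs y q2) (vec1_abs y q3)
      (vec2_abs y q1) (vec2_abs y q2) (vec2_abs y q3)
    rw [← e] at hb
    linarith
  obtain ⟨w, hw, hpl⟩ := planar (fun n => vec y (X n).1) N (fun n _ => hind n) hdet
  -- the relation
  have hrel : (w 0 : ℝ) + w 1 * Real.exp 1 + w 2 * y = 0 := by
    by_contra hne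
    set δ := |(w 0 : ℝ) + w 1 * Real.exp 1 + w 2 * y| with hδ
    have hδ0 : 0 < δ := by rw [hδ]; exact abs_pos.mpr hne
    have hb : ∀ n ≥ N, ((X n).1 : ℝ) * δ ≤ (|(w 1:ℝ)| + |(w 2:ℝ)|) * ms y 1 + (|(w 1:ℝ)| + |(w 2:ℝ)|) := by
      intro n hn
      have h1 := hpl n hn
      have h1' : (w 0 : ℝ) * (X n).1 + w 1 * vec y (X n).1 1 + w 2 * vec y (X n).1 2 = 0 := by
        have : ((w 0 * vec y (X n).1 0 + w 1 * vec y (X n).1 1 + w 2 * vec y (X n).1 2 : ℤ) : ℝ) = 0 := by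
          exact_mod_cast h1
        rw [vec0] at this
        push_cast at this
        exact this
      have e : ((X n).1 : ℝ) * ((w 0 : ℝ) + w 1 * Real.exp 1 + w 2 * y)
          = w 1 * (((X n).1:ℝ) * Real.exp 1 - vec y (X n).1 1) + w 2 * (((X n).1:ℝ) * y - vec y (X n).1 2) := by
        linear_combination h1'
      have h2 : ((X n).1 : ℝ) * δ = |w 1 * (((X n).1:ℝ) * Real.exp 1 - vec y (X n).1 1) + w 2 * (((X n).1:ℝ) * y - vec y (X n).1 2)| := by
        rw [← e, abs_mul, abs_of_pos (hXpos n)]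
      rw [h2]
      have c1 : |((X n).1:ℝ) * Real.exp 1 - vec y (X n).1 1| ≤ 1 := by
        rw [vec1]
        have := abs_sub_round (((X n).1:ℝ) * Real.exp 1)
        linarith
      have c2 : |((X n).1:ℝ) * y - vec y (X n).1 2| ≤ 1 := by
        rw [vec2]
        have := abs_sub_round (((X n).1:ℝ) * y)
        linarith
      refine (abs_add_le _ _).trans ?_
      rw [abs_mul, abs_mul]
      have p1 := abs_nonneg (w 1:ℝ)
      have p2 := abs_nonneg (w 2:ℝ)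
      have p3 : 0 ≤ ms y 1 := (ms_pos y 1 le_rfl).le
      have p4 : 0 ≤ (|(w 1:ℝ)| + |(w 2:ℝ)|) * ms y 1 := by positivity
      nlinarith
    obtain ⟨k, hk⟩ := exists_nat_gt (((|(w 1:ℝ)| + |(w 2:ℝ)|) * ms y 1 + (|(w 1:ℝ)| + |(w 2:ℝ)|)) / δ)
    have h1 := hb (max N k) (le_max_left _ _)
    have h2 : k ≤ (X (max N k)).1 := (le_max_right N k).trans
      (minseq_ge (fun v : {q : ℕ // 1 ≤ q} => v.1) X hX1 _)
    have h2' : (k:ℝ) ≤ (X (max N k)).1 := by exact_mod_cast h2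
    rw [div_lt_iff₀ hδ0] at hk
    nlinarith
  have := hno _ _ _ hrel
  rcases hw with h | h | h
  · exact h this.1
  · exact h this.2.1
  · exact h this.2.2

end H3EP

namespace H3EP

open Filter Topology

lemma log_lt_rpow (K κ : ℝ) (hK : 0 < K) (hκ : 0 < κ) :
    ∃ A0 : ℝ, ∀ A ≥ A0, K * Real.log (A + 2) < A ^ κ := by
  have h := (isLittleO_log_rpow_atTop hκ).def (c := 1 / (2 * K * 3 ^ κ)) (by positivity)
  obtain ⟨z0, hz0⟩ := eventually_atTop.mp h
  refine ⟨max z0 1, ?_⟩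
  intro A hA
  have hA1 : 1 ≤ A := (le_max_right _ _).trans hA
  have h1 := hz0 (A + 2) (by linarith [(le_max_left z0 1).trans hA])
  rw [Real.norm_eq_abs, Real.norm_eq_abs, abs_of_nonneg (Real.log_nonneg (by linarith)),
    abs_of_nonneg (by positivity)] at h1
  have h2 : (A + 2) ^ κ ≤ (3 * A) ^ κ :=
    Real.rpow_le_rpow (by linarith) (by linarith) hκ.le
  rw [Real.mul_rpow (by norm_num) (by linarith)] at h2
  have h3 : (0:ℝ) < 3 ^ κ := by positivity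
  have h4 : 0 < A ^ κ := by positivity
  calc K * Real.log (A + 2) ≤ K * (1 / (2 * K * 3 ^ κ) * (A + 2) ^ κ) :=
        mul_le_mul_of_nonneg_left h1 hK.le
    _ ≤ K * (1 / (2 * K * 3 ^ κ) * (3 ^ κ * A ^ κ)) := by gcongr
    _ = A ^ κ / 2 := by field_simp
    _ < A ^ κ := by linarith

/-- golden ratio bound for the uniform exponent of simultaneous approximation -/
theorem sim_main (y δ : ℝ) (hδ : (Real.sqrt 5 - 1) / 2 < δ)
    (h : ∃ Q0 : ℝ, ∀ Q : ℝ, Q0 ≤ Q → ∃ q : ℕ, 1 ≤ q ∧ (q:ℝ) ≤ Q ∧ ms y q ≤ Q ^ (-δ)) :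
    ∃ a b c : ℤ, (a:ℝ) + b * Real.exp 1 + c * y = 0 ∧ ¬ (a = 0 ∧ b = 0 ∧ c = 0) := by
  by_contra hcon
  push Not at hcon
  have hs5 : Real.sqrt 5 < 2.24 := by
    rw [Real.sqrt_lt' (by norm_num)]; norm_num
  have hs5' : 2 < Real.sqrt 5 := by
    rw [Real.lt_sqrt (by norm_num)]; norm_num
  -- reduce to δ' < 1
  set d : ℝ := min δ 0.9 with hd
  have hd1 : d ≤ 0.9 := min_le_right _ _
  have hd0 : (Real.sqrt 5 - 1) / 2 < d := by
    rw [hd]; apply lt_min hδ; linarith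
  have hdpos : 0.5 < d := by linarith
  have hquad : 0 < d ^ 2 + d - 1 := by
    have hsq : Real.sqrt 5 ^ 2 = 5 := Real.sq_sqrt (by norm_num)
    nlinarith
  obtain ⟨Q0, hQ0⟩ := h
  have hU : ∀ Q : ℝ, max Q0 1 ≤ Q → ∃ q : ℕ, 1 ≤ q ∧ (q:ℝ) ≤ Q ∧ ms y q ≤ Q ^ (-d) := by
    intro Q hQ
    obtain ⟨q, h1, h2, h3⟩ := hQ0 Q ((le_max_left _ _).trans hQ)
    refine ⟨q, h1, h2, h3.trans ?_⟩
    apply Real.rpow_le_rpow_of_exponent_le ((le_max_right _ _).trans hQ)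
    have := min_le_left δ 0.9
    linarith
  have hsm : ∀ ε > 0, ∃ q : ℕ, 1 ≤ q ∧ ms y q < ε := by
    intro ε hε
    have ht : Tendsto (fun Q : ℝ => Q ^ (-d)) atTop (𝓝 0) := tendsto_rpow_neg_atTop (by linarith)
    obtain ⟨Q, hQ1, hQ2⟩ := ((ht.eventually_lt_const hε).and (eventually_ge_atTop (max Q0 1))).exists
    obtain ⟨q, h1, h2, h3⟩ := hU Q hQ2
    exact ⟨q, h1, lt_of_le_of_lt h3 hQ1⟩
  obtain ⟨x, hx1, hx2, hx3, hx4, hx5⟩ := sim_seq y (fun a b c h => hcon a b c h) hsm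
  have hxge : ∀ n, n ≤ x n := by
    intro n
    induction n with
    | zero => exact Nat.zero_le _
    | succ n ih => have := hx2 n; omega
  obtain ⟨A0, hA0⟩ := log_lt_rpow 9600 (d ^ 2 + d - 1) (by norm_num) hquad
  -- choose N large
  obtain ⟨N, hN⟩ := exists_nat_gt (max (max A0 2) (max Q0 1 + 1))
  obtain ⟨n, hn, hdet⟩ := hx5 N
  set A : ℝ := (x (n + 1) : ℝ) with hA
  set B : ℝ := (x (n + 2) : ℝ) with hB
  have hNA : (N:ℝ) ≤ A := by
    rw [hA]
    have := hxge (n + 1)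
    exact_mod_cast (by omega : N ≤ x (n + 1))
  have hAA0 : A0 ≤ A := by
    have := (le_max_left A0 2).trans ((le_max_left _ (max Q0 1 + 1)).trans hN.le)
    linarith
  have hA2 : 2 ≤ A := by
    have := (le_max_right A0 2).trans ((le_max_left _ (max Q0 1 + 1)).trans hN.le)
    linarith
  have hAQ : max Q0 1 ≤ A - 1 := by
    have := (le_max_right (max A0 2) (max Q0 1 + 1)).trans hN.le
    linarith
  have hAB : A ≤ B := by
    rw [hA, hB]
    exact_mod_cast (hx2 (n + 1)).le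
  have hB2 : 2 ≤ B := hA2.trans hAB
  have half : ∀ (m : ℕ) (C : ℝ), C = (x (m + 1) : ℝ) → 2 ≤ C → max Q0 1 ≤ C - 1 →
      ms y (x m) ≤ 2 * C ^ (-d) := by
    intro m C hC hC2 hCQ
    obtain ⟨q, h1, h2, h3⟩ := hU (C - 1) hCQ
    have hlt : q < x (m + 1) := by
      have : (q:ℝ) < x (m + 1) := by rw [← hC]; linarith
      exact_mod_cast this
    refine (hx4 m q h1 hlt).trans (h3.trans ?_)
    have e1 : (C - 1) ^ (-d) ≤ (C / 2) ^ (-d) := by
      apply Real.rpow_le_rpow_of_nonpos (by linarith) (by linarith) (by linarith)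
    refine e1.trans ?_
    rw [Real.div_rpow (by linarith) (by norm_num), div_eq_mul_inv, ← Real.rpow_neg (by norm_num),
      neg_neg, mul_comm]
    apply mul_le_mul_of_nonneg_right _ (by positivity)
    calc (2:ℝ) ^ d ≤ 2 ^ (1:ℝ) := Real.rpow_le_rpow_of_exponent_le (by norm_num) (by linarith)
      _ = 2 := by norm_num
  have hmA := half n A hA hA2 hAQ
  have hmB := half (n + 1) B hB hB2 (by linarith)
  have hA0' : (0:ℝ) < A := by linarith
  have hB0' : (0:ℝ) < B := by linarith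
  -- (I)
  have I1 : A ^ d ≤ 24 * B ^ (1 - d) := by
    have hp1 := (ms_pos y (x n) (hx1 n)).le
    have hp2 := (ms_pos y (x (n + 1)) (hx1 (n + 1))).le
    have e1 : 6 * B * ms y (x n) * ms y (x (n + 1)) ≤ 6 * B * (2 * A ^ (-d)) * (2 * B ^ (-d)) := by
      gcongr
    have e2 : 6 * B * (2 * A ^ (-d)) * (2 * B ^ (-d)) = 24 * A ^ (-d) * B ^ (1 - d) := by
      rw [show (1:ℝ) - d = 1 + (-d) by ring, Real.rpow_add hB0', Real.rpow_one]; ring
    have e3 : 1 ≤ 24 * A ^ (-d) * B ^ (1 - d) := by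
      rw [← e2]; exact hdet.trans e1
    have e4 : A ^ d * A ^ (-d) = 1 := by
      rw [← Real.rpow_add hA0']; simp
    have e5 : 0 < A ^ d := by positivity
    calc A ^ d = A ^ d * 1 := by ring
      _ ≤ A ^ d * (24 * A ^ (-d) * B ^ (1 - d)) := mul_le_mul_of_nonneg_left e3 e5.le
      _ = 24 * B ^ (1 - d) * (A ^ d * A ^ (-d)) := by ring
      _ = 24 * B ^ (1 - d) := by rw [e4, mul_one]
  -- (II)
  have hl1 : 1 ≤ Real.log (A + 2) := by
    rw [Real.le_log_iff_exp_le (by linarith)]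
    have := Real.exp_one_lt_d9
    linarith
  have I2 : B ^ d ≤ 400 * A * Real.log (A + 2) := by
    have e1 := (ms_ge y (x (n + 1)) (hx1 (n + 1))).trans hmB
    rw [← hA] at e1
    rw [div_le_iff₀ (by positivity)] at e1
    have e4 : B ^ d * B ^ (-d) = 1 := by
      rw [← Real.rpow_add hB0']; simp
    have e5 : 0 < B ^ d := by positivity
    calc B ^ d = B ^ d * 1 := by ring
      _ ≤ B ^ d * (2 * B ^ (-d) * (200 * A * Real.log (A + 2))) := mul_le_mul_of_nonneg_left e1 e5.le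
      _ = (B ^ d * B ^ (-d)) * (400 * A * Real.log (A + 2)) := by ring
      _ = 400 * A * Real.log (A + 2) := by rw [e4, one_mul]
  -- combine
  have I3 : A ^ (d ^ 2) ≤ 9600 * A ^ (1 - d) * Real.log (A + 2) := by
    have e1 : A ^ (d ^ 2) = (A ^ d) ^ d := by
      rw [← Real.rpow_mul hA0'.le]; ring_nf
    have e2 : (A ^ d) ^ d ≤ (24 * B ^ (1 - d)) ^ d :=
      Real.rpow_le_rpow (by positivity) I1 (by linarith)
    have e3 : (24 * B ^ (1 - d)) ^ d = 24 ^ d * (B ^ d) ^ (1 - d) := by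
      rw [Real.mul_rpow (by norm_num) (by positivity), ← Real.rpow_mul hB0'.le,
        ← Real.rpow_mul hB0'.le, mul_comm d (1 - d)]
    have e4 : (B ^ d) ^ (1 - d) ≤ (400 * A * Real.log (A + 2)) ^ (1 - d) :=
      Real.rpow_le_rpow (by positivity) I2 (by linarith)
    have e5 : (400 * A * Real.log (A + 2)) ^ (1 - d)
        = 400 ^ (1 - d) * A ^ (1 - d) * Real.log (A + 2) ^ (1 - d) := by
      rw [Real.mul_rpow (by positivity) (by linarith), Real.mul_rpow (by norm_num) hA0'.le]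
    have e6 : (24:ℝ) ^ d ≤ 24 := by
      calc (24:ℝ) ^ d ≤ 24 ^ (1:ℝ) := Real.rpow_le_rpow_of_exponent_le (by norm_num) (by linarith)
        _ = 24 := by norm_num
    have e7 : (400:ℝ) ^ (1 - d) ≤ 400 := by
      calc (400:ℝ) ^ (1 - d) ≤ 400 ^ (1:ℝ) :=
            Real.rpow_le_rpow_of_exponent_le (by norm_num) (by linarith)
        _ = 400 := by norm_num
    have e8 : Real.log (A + 2) ^ (1 - d) ≤ Real.log (A + 2) := by
      calc Real.log (A + 2) ^ (1 - d) ≤ Real.log (A + 2) ^ (1:ℝ) :=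
            Real.rpow_le_rpow_of_exponent_le hl1 (by linarith)
        _ = Real.log (A + 2) := by simp
    have hl0 : 0 ≤ Real.log (A + 2) := by linarith
    calc A ^ (d ^ 2) ≤ 24 ^ d * (B ^ d) ^ (1 - d) := by rw [e1]; exact e2.trans e3.le
      _ ≤ 24 * (400 * A ^ (1 - d) * Real.log (A + 2)) := by
          apply mul_le_mul e6 _ (by positivity) (by norm_num)
          refine e4.trans ?_
          rw [e5]
          gcongr
      _ = 9600 * A ^ (1 - d) * Real.log (A + 2) := by ring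
  have I4 : A ^ (d ^ 2 + d - 1) ≤ 9600 * Real.log (A + 2) := by
    have e1 : A ^ (d ^ 2) = A ^ (d ^ 2 + d - 1) * A ^ (1 - d) := by
      rw [← Real.rpow_add hA0']; ring_nf
    rw [e1] at I3
    have e2 : 0 < A ^ (1 - d) := by positivity
    have e3 : A ^ (d ^ 2 + d - 1) * A ^ (1 - d) ≤ (9600 * Real.log (A + 2)) * A ^ (1 - d) := by
      linarith
    exact le_of_mul_le_mul_right e3 e2
  have := hA0 A hAA0
  linarith

end H3EP
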